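import Mathlib

set_option autoImplicit false

/-!
# Sub-mean value inequality on Kobayashi balls fails

For every `n ≥ 2` and every `p > 0` we exhibit a bounded domain in `ℂⁿ`, complete for the
Kobayashi distance, on which there are no constants `C, r₀` with
`|f(z)|^p ≤ C / V(B(z,r)) ∫_{B(z,r)} |f|^p dV` for all holomorphic `f`, all `z` and all `r < r₀`.
The domain is `{0 < |z₀| < 1, |z_j| < |z₀|^m (j ≥ 1)}` with `m` large, the function is `1/z₀`,
and the centres are `(x,0,…,0)` with `x → 0+`. For `n = 1` (punctured disc) all `p < 2` are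
covered.
-/

namespace Pool.Agent.Results.MP_8e2100_an.SubMeanFails

open MeasureTheory Set Metric Filter
open scoped ENNReal NNReal Topology

/-- complex `n`-space -/
abbrev Cn (n : ℕ) : Type := Fin n → ℂ

/-- The infinitesimal Kobayashi metric of `Ω` at the point `z` in the direction `v`:
infimum of all `a ≥ 0` such that `a φ'(0) = v` for some holomorphic map `φ` from the unit disc
into `Ω` with `φ(0) = z`. -/
noncomputable def kobMetric {n : ℕ} (Ω : Set (Cn n)) (z v : Cn n) : ℝ≥0∞ :=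
  ⨅ (a : ℝ≥0) (_ : ∃ φ : ℂ → Cn n, DifferentiableOn ℂ φ (ball 0 1) ∧ MapsTo φ (ball 0 1) Ω ∧
    φ 0 = z ∧ ((a : ℝ) : ℂ) • deriv φ 0 = v), (a : ℝ≥0∞)

/-- `γ`, restricted to `[0,1]`, is a piecewise continuously differentiable curve in `Ω`
from `z` to `w`. -/
structure IsCurve {n : ℕ} (Ω : Set (Cn n)) (z w : Cn n) (γ : ℝ → Cn n) : Prop where
  cont : ContinuousOn γ (Icc 0 1)
  maps : MapsTo γ (Icc 0 1) Ω
  left : γ 0 = z
  right : γ 1 = w
  smooth : ∃ S : Finset ℝ, ∀ t ∈ Icc (0 : ℝ) 1, t ∉ S → ContDiffAt ℝ 1 γ t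

/-- Kobayashi length of a curve: the integral of the infinitesimal metric. -/
noncomputable def kobLength {n : ℕ} (Ω : Set (Cn n)) (γ : ℝ → Cn n) : ℝ≥0∞ :=
  ∫⁻ t in Icc (0 : ℝ) 1, kobMetric Ω (γ t) (deriv γ t)

/-- The Kobayashi distance: infimum of the Kobayashi lengths of the curves. -/
noncomputable def kobDist {n : ℕ} (Ω : Set (Cn n)) (z w : Cn n) : ℝ≥0∞ :=
  ⨅ (γ : ℝ → Cn n) (_ : IsCurve Ω z w γ), kobLength Ω γ

/-- Kobayashi ball -/
def kobBall {n : ℕ} (Ω : Set (Cn n)) (z : Cn n) (r : ℝ) : Set (Cn n) :=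
  {w ∈ Ω | kobDist Ω z w < ENNReal.ofReal r}

/-- `(Ω, k_Ω)` is a complete metric space: the distance is finite, separates points, and Cauchy
sequences converge. -/
def KobComplete {n : ℕ} (Ω : Set (Cn n)) : Prop :=
  (∀ z ∈ Ω, ∀ w ∈ Ω, kobDist Ω z w ≠ ⊤) ∧
  (∀ z ∈ Ω, ∀ w ∈ Ω, kobDist Ω z w = 0 → z = w) ∧
  ∀ a : ℕ → Cn n, (∀ i, a i ∈ Ω) →
    (∀ ε > 0, ∃ N, ∀ i ≥ N, ∀ j ≥ N, kobDist Ω (a i) (a j) < ε) →
    ∃ b ∈ Ω, Tendsto (fun i => kobDist Ω (a i) b) atTop (𝓝 0)

variable {n : ℕ} {Ω : Set (Cn n)} {z w v : Cn n}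

lemma le_kobMetric {b : ℝ}
    (h : ∀ φ : ℂ → Cn n, DifferentiableOn ℂ φ (ball 0 1) → MapsTo φ (ball 0 1) Ω → φ 0 = z →
      ∀ a : ℝ≥0, ((a : ℝ) : ℂ) • deriv φ 0 = v → b ≤ a) :
    ENNReal.ofReal b ≤ kobMetric Ω z v := by
  refine le_iInf fun a => le_iInf fun ⟨φ, h1, h2, h3, h4⟩ => ?_
  exact ENNReal.ofReal_le_of_le_toReal (by simpa using h φ h1 h2 h3 a h4)

lemma kobMetric_le {a : ℝ≥0} {φ : ℂ → Cn n} (h1 : DifferentiableOn ℂ φ (ball 0 1))
    (h2 : MapsTo φ (ball 0 1) Ω) (h3 : φ 0 = z) (h4 : ((a : ℝ) : ℂ) • deriv φ 0 = v) :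
    kobMetric Ω z v ≤ a :=
  iInf_le_of_le a (iInf_le_of_le ⟨φ, h1, h2, h3, h4⟩ le_rfl)

/-- lower bound for the length of a curve by a real function with controlled derivative -/
lemma curve_lower {γ : ℝ → Cn n} (hγ : IsCurve Ω z w γ) (h h' : ℝ → ℝ)
    (hc : ContinuousOn h (Icc 0 1))
    (hd : ∀ t ∈ Ioo (0 : ℝ) 1, DifferentiableAt ℝ γ t → HasDerivAt h (h' t) t)
    (hb : ∀ t ∈ Ioo (0 : ℝ) 1, DifferentiableAt ℝ γ t →
      ENNReal.ofReal |h' t| ≤ kobMetric Ω (γ t) (deriv γ t)) :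
    ENNReal.ofReal |h 1 - h 0| ≤ kobLength Ω γ := by
  obtain ⟨S, hS⟩ := hγ.smooth
  by_cases htop : kobLength Ω γ = ⊤
  · rw [htop]; exact le_top
  have hdiff : ∀ t ∈ Ioo (0 : ℝ) 1, t ∉ S → DifferentiableAt ℝ γ t := fun t ht htS =>
    (hS t (Ioo_subset_Icc_self ht) htS).differentiableAt one_ne_zero
  have hae : ∀ᵐ t ∂(volume.restrict (Icc (0 : ℝ) 1)), t ∈ Ioo (0 : ℝ) 1 ∧ t ∉ S := by
    rw [ae_restrict_iff' measurableSet_Icc]
    have hfin : ((S : Set ℝ) ∪ {0, 1}).Finite := S.finite_toSet.union (Set.toFinite _)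
    have : ∀ᵐ t : ℝ, t ∉ ((S : Set ℝ) ∪ {0, 1}) := hfin.countable.ae_notMem volume
    filter_upwards [this] with t ht ht1
    simp only [mem_union, mem_insert_iff, mem_singleton_iff, not_or, Finset.mem_coe] at ht
    exact ⟨⟨lt_of_le_of_ne ht1.1 (Ne.symm ht.2.1), lt_of_le_of_ne ht1.2 ht.2.2⟩, ht.1⟩
  have hmeas : Measurable (deriv h) := measurable_deriv h
  have hle : ∫⁻ t in Icc (0 : ℝ) 1, ‖deriv h t‖ₑ ≤ kobLength Ω γ := by
    apply lintegral_mono_ae
    filter_upwards [hae] with t ht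
    rw [(hd t ht.1 (hdiff t ht.1 ht.2)).deriv, ← ofReal_norm, Real.norm_eq_abs]
    exact hb t ht.1 (hdiff t ht.1 ht.2)
  have hint : IntegrableOn (deriv h) (Icc (0 : ℝ) 1) volume :=
    ⟨hmeas.aestronglyMeasurable, lt_of_le_of_lt hle (lt_top_iff_ne_top.2 htop)⟩
  have hint2 : IntervalIntegrable (deriv h) volume 0 1 := by
    rw [intervalIntegrable_iff_integrableOn_Icc_of_le zero_le_one]
    exact hint
  have hftc := MeasureTheory.integral_eq_of_hasDerivAt_off_countable (a := (0 : ℝ)) (b := 1)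
    h (deriv h) (s := (S : Set ℝ)) S.countable_toSet (by rwa [uIcc_of_le zero_le_one])
    (fun t ht => by
      rw [min_eq_left zero_le_one, max_eq_right zero_le_one] at ht
      have := hd t ht.1 (hdiff t ht.1 ht.2)
      rwa [this.deriv]) hint2
  rw [← hftc, ← Real.norm_eq_abs]
  have h1 : ‖∫ t in (0 : ℝ)..1, deriv h t‖ ≤ ∫ t in Icc (0 : ℝ) 1, ‖deriv h t‖ := by
    rw [intervalIntegral.integral_of_le zero_le_one, ← integral_Icc_eq_integral_Ioc]
    exact norm_integral_le_integral_norm _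
  refine (ENNReal.ofReal_le_ofReal h1).trans ?_
  rw [ofReal_integral_norm_eq_lintegral_enorm hint]
  exact hle

/-- Schwarz-Pick at the origin -/
lemma schwarz_pick {ψ : ℂ → ℂ} (hd : DifferentiableOn ℂ ψ (ball 0 1))
    (hm : MapsTo ψ (ball 0 1) (ball 0 1)) : ‖deriv ψ 0‖ ≤ 1 - ‖ψ 0‖ ^ 2 := by
  have h0 : (0 : ℂ) ∈ ball (0 : ℂ) 1 := by simp
  have hb : ∀ x ∈ ball (0 : ℂ) 1, ‖ψ x‖ < 1 := fun x hx => by simpa using hm hx
  set c := ψ 0 with hc
  have hc1 : ‖c‖ < 1 := hb 0 h0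
  have hne : ∀ x ∈ ball (0 : ℂ) 1, 1 - (starRingEnd ℂ) c * ψ x ≠ 0 := by
    intro x hx h
    have h1 : ‖(starRingEnd ℂ) c * ψ x‖ = 1 := by
      have : (starRingEnd ℂ) c * ψ x = 1 := (sub_eq_zero.1 h).symm
      rw [this]; simp
    rw [norm_mul, RCLike.norm_conj] at h1
    have h2 := hb x hx
    have h3 : ‖c‖ * ‖ψ x‖ < 1 * 1 := mul_lt_mul'' hc1 h2 (norm_nonneg _) (norm_nonneg _)
    linarith
  set f : ℂ → ℂ := fun x => (ψ x - c) / (1 - (starRingEnd ℂ) c * ψ x) with hf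
  have hfd : DifferentiableOn ℂ f (ball 0 1) :=
    (hd.sub_const c).div ((differentiableOn_const 1).sub (hd.const_mul _)) hne
  have hf0 : f 0 = 0 := by simp [hf, hc]
  have hfm : MapsTo f (ball 0 1) (closedBall (f 0) 1) := by
    intro x hx
    rw [hf0, mem_closedBall_zero_iff]
    simp only [hf]
    rw [norm_div, div_le_one (norm_pos_iff.2 (hne x hx))]
    apply le_of_sq_le_sq _ (norm_nonneg _)
    rw [← Complex.normSq_eq_norm_sq, ← Complex.normSq_eq_norm_sq]
    have h1 : Complex.normSq (ψ x) < 1 := by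
      rw [Complex.normSq_eq_norm_sq]
      have := hb x hx
      nlinarith [norm_nonneg (ψ x)]
    have h2 : Complex.normSq c < 1 := by
      rw [Complex.normSq_eq_norm_sq]
      nlinarith [norm_nonneg c]
    simp only [Complex.normSq_apply, Complex.sub_re, Complex.sub_im, Complex.mul_re,
      Complex.mul_im, Complex.conj_re, Complex.conj_im, Complex.one_re, Complex.one_im] at *
    nlinarith [mul_pos (sub_pos.2 h1) (sub_pos.2 h2)]
  have h1 := Complex.norm_deriv_le_one_of_mapsTo_ball hfd hfm one_pos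
  have hda : DifferentiableAt ℂ ψ 0 := hd.differentiableAt (ball_mem_nhds _ one_pos)
  have h2 : HasDerivAt f (deriv ψ 0 / (1 - ‖c‖ ^ 2 : ℝ)) 0 := by
    have e1 := (hda.hasDerivAt.sub_const c).div
      ((hda.hasDerivAt.const_mul ((starRingEnd ℂ) c)).const_sub 1) (hne 0 h0)
    have e2 : 1 - (starRingEnd ℂ) c * ψ 0 = ((1 - ‖c‖ ^ 2 : ℝ) : ℂ) := by
      rw [← hc, ← Complex.normSq_eq_conj_mul_self, Complex.normSq_eq_norm_sq]
      push_cast; ring
    have hne2 : ((1 - ‖c‖ ^ 2 : ℝ) : ℂ) ≠ 0 := by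
      rw [← e2]; exact hne 0 h0
    refine HasDerivAt.congr_deriv (f := f) e1 ?_
    rw [e2, ← hc, sub_self, zero_mul, sub_zero]
    field_simp
  rw [h2.deriv, norm_div, Complex.norm_real] at h1
  have hpos : 0 < 1 - ‖c‖ ^ 2 := by nlinarith [norm_nonneg c]
  rw [Real.norm_eq_abs, abs_of_pos hpos, div_le_one hpos] at h1
  exact h1

/-- the punctured disc -/
lemma punctured {φ : ℂ → ℂ} (hd : DifferentiableOn ℂ φ (ball 0 1))
    (hm : ∀ x ∈ ball (0 : ℂ) 1, 0 < ‖φ x‖ ∧ ‖φ x‖ < 1) :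
    ‖deriv φ 0‖ ≤ 2 * ‖φ 0‖ * (-Real.log ‖φ 0‖) := by
  have h0 : (0 : ℂ) ∈ ball (0 : ℂ) 1 := by simp
  have hne : ∀ x ∈ ball (0 : ℂ) 1, φ x ≠ 0 := fun x hx => norm_pos_iff.1 (hm x hx).1
  have hda : ∀ x ∈ ball (0 : ℂ) 1, DifferentiableAt ℂ φ x := fun x hx =>
    hd.differentiableAt (isOpen_ball.mem_nhds hx)
  have hdd : DifferentiableOn ℂ (fun x => deriv φ x / φ x) (ball 0 1) :=
    (hd.deriv isOpen_ball).div hd hne
  obtain ⟨g, hg0, hg⟩ := hdd.isExactOn_ball.with_val_at 0 (Complex.log (φ 0))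
  -- φ = exp g
  have hexp : ∀ x ∈ ball (0 : ℂ) 1, φ x = Complex.exp (g x) := by
    have hder : ∀ x ∈ ball (0 : ℂ) 1, HasDerivAt (fun y => φ y * Complex.exp (-g y)) 0 x := by
      intro x hx
      have e := (hda x hx).hasDerivAt.mul ((hg x hx).fun_neg.cexp)
      refine HasDerivAt.congr_deriv e ?_
      have := hne x hx
      field_simp
      ring
    have hconst : ∀ x ∈ ball (0 : ℂ) 1, φ x * Complex.exp (-g x) = φ 0 * Complex.exp (-g 0) := by
      intro x hx
      have := (convex_ball (0 : ℂ) 1).is_const_of_fderivWithin_eq_zero (𝕜 := ℂ)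
        (f := fun y => φ y * Complex.exp (-g y))
        (fun y hy => (hder y hy).differentiableAt.differentiableWithinAt) (fun y hy => by
          rw [fderivWithin_of_isOpen isOpen_ball hy]
          have := (hder y hy).hasFDerivAt.fderiv
          rw [this]; ext; simp) hx h0
      exact this
    intro x hx
    have h1 := hconst x hx
    rw [hg0, Complex.exp_neg (Complex.log _), Complex.exp_log (hne 0 h0),
      mul_inv_cancel₀ (hne 0 h0), Complex.exp_neg] at h1
    have h2 := Complex.exp_ne_zero (g x)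
    field_simp at h1
    exact h1
  have hre : ∀ x ∈ ball (0 : ℂ) 1, (g x).re < 0 := by
    intro x hx
    have := (hm x hx).2
    rw [hexp x hx, Complex.norm_exp] at this
    exact (Real.exp_lt_one_iff).1 this
  set c := g 0 with hc
  have hcre : c.re < 0 := hre 0 h0
  have hcre2 : c.re = Real.log ‖φ 0‖ := by
    rw [hexp 0 h0, Complex.norm_exp, Real.log_exp]
  have hne2 : ∀ x ∈ ball (0 : ℂ) 1, g x + (starRingEnd ℂ) c ≠ 0 := by
    intro x hx h
    have := congrArg Complex.re h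
    simp only [Complex.add_re, Complex.conj_re, Complex.zero_re] at this
    linarith [hre x hx]
  have hgd : DifferentiableOn ℂ g (ball 0 1) := fun x hx =>
    (hg x hx).differentiableAt.differentiableWithinAt
  set f : ℂ → ℂ := fun x => (g x - c) / (g x + (starRingEnd ℂ) c) with hf
  have hfd : DifferentiableOn ℂ f (ball 0 1) := (hgd.sub_const c).div (hgd.add_const _) hne2
  have hf0 : f 0 = 0 := by simp [hf, hc]
  have hfm : MapsTo f (ball 0 1) (closedBall (f 0) 1) := by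
    intro x hx
    rw [hf0, mem_closedBall_zero_iff]
    simp only [hf]
    rw [norm_div, div_le_one (norm_pos_iff.2 (hne2 x hx))]
    apply le_of_sq_le_sq _ (norm_nonneg _)
    rw [← Complex.normSq_eq_norm_sq, ← Complex.normSq_eq_norm_sq]
    simp only [Complex.normSq_apply, Complex.sub_re, Complex.sub_im, Complex.add_re,
      Complex.add_im, Complex.conj_re, Complex.conj_im]
    nlinarith [mul_pos_of_neg_of_neg (hre x hx) hcre]
  have h1 := Complex.norm_deriv_le_one_of_mapsTo_ball hfd hfm one_pos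
  have h2 : HasDerivAt f (deriv φ 0 / φ 0 / (2 * c.re : ℝ)) 0 := by
    have e1 := ((hg 0 h0).sub_const c).div ((hg 0 h0).add_const ((starRingEnd ℂ) c)) (hne2 0 h0)
    have e2 : g 0 + (starRingEnd ℂ) c = ((2 * c.re : ℝ) : ℂ) := by
      rw [← hc, Complex.add_conj]
    have hne3 : ((2 * c.re : ℝ) : ℂ) ≠ 0 := by
      rw [← e2]; exact hne2 0 h0
    refine HasDerivAt.congr_deriv (f := f) e1 ?_
    rw [e2, ← hc, sub_self, zero_mul, sub_zero]
    field_simp
  rw [h2.deriv, norm_div, norm_div, Complex.norm_real, Real.norm_eq_abs] at h1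
  have habs : |2 * c.re| = 2 * (-c.re) := by
    rw [abs_of_neg (by linarith)]; ring
  have hp : 0 < 2 * (-c.re) := by linarith
  have hpφ : 0 < ‖φ 0‖ := (hm 0 h0).1
  rw [habs, div_le_one hp, div_le_iff₀ hpφ] at h1
  rw [← hcre2]
  linarith

/-- real derivative of `log ‖f‖` -/
lemma hasDerivAt_log_norm {f : ℝ → ℂ} {f' : ℂ} {t : ℝ} (hf : HasDerivAt f f' t)
    (hne : f t ≠ 0) : HasDerivAt (fun s => Real.log ‖f s‖) ((f' / f t).re) t := by
  have h1 : HasDerivAt (fun s => Complex.normSq (f s))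
      (2 * ((starRingEnd ℂ) (f t) * f').re) t := by
    have hre : HasDerivAt (fun s => (f s).re) f'.re t :=
      Complex.reCLM.hasFDerivAt.comp_hasDerivAt t hf
    have him : HasDerivAt (fun s => (f s).im) f'.im t :=
      Complex.imCLM.hasFDerivAt.comp_hasDerivAt t hf
    have := (hre.mul hre).add (him.mul him)
    refine HasDerivAt.congr_deriv (f := fun s => Complex.normSq (f s)) this ?_
    simp only [Complex.mul_re, Complex.conj_re, Complex.conj_im]
    ring
  have hpos : 0 < Complex.normSq (f t) := Complex.normSq_pos.2 hne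
  have h2 := (h1.log hpos.ne').const_mul (1 / 2 : ℝ)
  have e : (fun s => Real.log ‖f s‖) = fun s => (1 / 2 : ℝ) * Real.log (Complex.normSq (f s)) := by
    funext s
    rw [Complex.normSq_eq_norm_sq, Real.log_pow]
    push_cast; ring
  rw [e]
  refine h2.congr_deriv ?_
  rw [Complex.div_re]
  simp only [Complex.mul_re, Complex.conj_re, Complex.conj_im]
  field_simp
  ring

lemma hasDerivAt_normSq {f : ℝ → ℂ} {f' : ℂ} {t : ℝ} (hf : HasDerivAt f f' t) :
    HasDerivAt (fun s => ‖f s‖ ^ 2) (2 * ((starRingEnd ℂ) (f t) * f').re) t := by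
  have hre : HasDerivAt (fun s => (f s).re) f'.re t :=
    Complex.reCLM.hasFDerivAt.comp_hasDerivAt t hf
  have him : HasDerivAt (fun s => (f s).im) f'.im t :=
    Complex.imCLM.hasFDerivAt.comp_hasDerivAt t hf
  have := (hre.mul hre).add (him.mul him)
  have e : (fun s => ‖f s‖ ^ 2) = fun s => Complex.normSq (f s) := by
    funext s; rw [Complex.normSq_eq_norm_sq]
  rw [e]
  refine HasDerivAt.congr_deriv (f := fun s => Complex.normSq (f s)) this ?_
  simp only [Complex.mul_re, Complex.conj_re, Complex.conj_im]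
  ring

/-- The domain `{0 < |z_0| < 1, |z_j| < |z_0| ^ m}`. -/
def Om (k m : ℕ) : Set (Cn (k + 1)) :=
  {z | 0 < ‖z 0‖ ∧ ‖z 0‖ < 1 ∧ ∀ j : Fin k, ‖z j.succ‖ < ‖z 0‖ ^ m}

section lower

variable {k m : ℕ}

/-- components of a map into `Cn` -/
lemma deriv_comp {n : ℕ} {φ : ℂ → Cn n} {x : ℂ} (h : DifferentiableAt ℂ φ x) (i : Fin n) :
    HasDerivAt (fun y => φ y i) (deriv φ x i) x := by
  have := h.hasDerivAt
  rw [hasDerivAt_pi] at this
  exact this i

lemma diffOn_comp {n : ℕ} {φ : ℂ → Cn n} {s : Set ℂ} (h : DifferentiableOn ℂ φ s) (i : Fin n) :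
    DifferentiableOn ℂ (fun y => φ y i) s := by
  rw [differentiableOn_pi] at h
  exact h i

lemma zero_mem_ball' : (0 : ℂ) ∈ ball (0 : ℂ) 1 := by simp

lemma smul_comp {n : ℕ} {φ : ℂ → Cn n} {a : ℝ≥0} {v : Cn n}
    (h : ((a : ℝ) : ℂ) • deriv φ 0 = v) (i : Fin n) : ‖v i‖ = a * ‖deriv φ 0 i‖ := by
  rw [← h, Pi.smul_apply, smul_eq_mul, norm_mul, Complex.norm_real, Real.norm_eq_abs,
    abs_of_nonneg (NNReal.coe_nonneg a)]

/-- lower bound (1) for the metric -/
lemma metric_low1 (p v : Cn (k + 1)) :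
    ENNReal.ofReal (‖v 0‖ / (2 * ‖p 0‖ * (-Real.log ‖p 0‖))) ≤ kobMetric (Om k m) p v := by
  apply le_kobMetric
  intro φ hd hm h0 a ha
  have hda : DifferentiableAt ℂ φ 0 := hd.differentiableAt (ball_mem_nhds _ one_pos)
  have h1 := punctured (diffOn_comp hd 0) (fun x hx => ⟨(hm hx).1, (hm hx).2.1⟩)
  rw [(deriv_comp hda 0).deriv] at h1
  have hp : p ∈ Om k m := by rw [← h0]; exact hm zero_mem_ball'
  have hlog : 0 < -Real.log ‖p 0‖ := by
    have := Real.log_neg hp.1 hp.2.1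
    linarith
  have hpos : 0 < 2 * ‖p 0‖ * (-Real.log ‖p 0‖) := by
    have := hp.1
    positivity
  rw [div_le_iff₀ hpos, smul_comp ha 0]
  apply mul_le_mul_of_nonneg_left _ a.2
  rw [h0] at h1
  exact h1

/-- the quotient coordinate -/
lemma metric_low2 (p v : Cn (k + 1)) (j : Fin k) :
    ENNReal.ofReal (‖v j.succ / p 0 ^ m - m * p j.succ * v 0 / p 0 ^ (m + 1)‖ /
      (1 - ‖p j.succ / p 0 ^ m‖ ^ 2)) ≤ kobMetric (Om k m) p v := by
  apply le_kobMetric
  intro φ hd hm h0 a ha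
  have hda : DifferentiableAt ℂ φ 0 := hd.differentiableAt (ball_mem_nhds _ one_pos)
  have hp : p ∈ Om k m := by rw [← h0]; exact hm zero_mem_ball'
  have hp0 : p 0 ≠ 0 := norm_pos_iff.1 hp.1
  have hne : ∀ x ∈ ball (0 : ℂ) 1, φ x 0 ^ m ≠ 0 := fun x hx =>
    pow_ne_zero _ (norm_pos_iff.1 (hm hx).1)
  have hmaps : MapsTo (fun x => φ x j.succ / φ x 0 ^ m) (ball 0 1) (ball 0 1) := by
    intro x hx
    have h1 := (hm hx).2.2 j
    have h2 : 0 < ‖φ x 0‖ ^ m := pow_pos (hm hx).1 m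
    simp only [mem_ball_zero_iff, norm_div, norm_pow]
    rwa [div_lt_one h2]
  have h1 := schwarz_pick ((diffOn_comp hd j.succ).fun_div ((diffOn_comp hd 0).fun_pow m) hne) hmaps
  have hder : HasDerivAt (fun x => φ x j.succ / φ x 0 ^ m)
      ((deriv φ 0 j.succ * p 0 ^ m - p j.succ * (m * p 0 ^ (m - 1) * deriv φ 0 0)) /
        (p 0 ^ m) ^ 2) 0 := by
    have e := (deriv_comp hda j.succ).fun_div ((deriv_comp hda 0).fun_pow m)
      (hne 0 zero_mem_ball')
    rw [h0] at e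
    exact e
  rw [hder.deriv, h0] at h1
  have hu : ‖p j.succ / p 0 ^ m‖ < 1 := by
    have h2 : 0 < ‖p 0‖ ^ m := pow_pos hp.1 m
    rw [norm_div, norm_pow, div_lt_one h2]
    exact hp.2.2 j
  have hpos : 0 < 1 - ‖p j.succ / p 0 ^ m‖ ^ 2 := by
    nlinarith [norm_nonneg (p j.succ / p 0 ^ m)]
  rw [div_le_iff₀ hpos]
  have e : v j.succ / p 0 ^ m - m * p j.succ * v 0 / p 0 ^ (m + 1) =
      ((a : ℝ) : ℂ) * ((deriv φ 0 j.succ * p 0 ^ m - p j.succ * (m * p 0 ^ (m - 1) * deriv φ 0 0)) /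
        (p 0 ^ m) ^ 2) := by
    rw [← ha]
    simp only [Pi.smul_apply, smul_eq_mul]
    rcases m with _ | m
    · simp
    · simp only [Nat.add_sub_cancel]
      field_simp
      ring
  rw [e, norm_mul, Complex.norm_real, Real.norm_eq_abs, abs_of_nonneg (NNReal.coe_nonneg a)]
  exact mul_le_mul_of_nonneg_left h1 a.2

/-- lower bound (3): the domain is bounded -/
lemma coord_lt {p : Cn (k + 1)} (hp : p ∈ Om k m) (i : Fin (k + 1)) : ‖p i‖ < 1 := by
  refine Fin.cases ?_ (fun j => ?_) i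
  · exact hp.2.1
  · refine (hp.2.2 j).trans_le (pow_le_one₀ (norm_nonneg _) hp.2.1.le)

lemma metric_low3 (p v : Cn (k + 1)) (i : Fin (k + 1)) :
    ENNReal.ofReal ‖v i‖ ≤ kobMetric (Om k m) p v := by
  apply le_kobMetric
  intro φ hd hm h0 a ha
  have hda : DifferentiableAt ℂ φ 0 := hd.differentiableAt (ball_mem_nhds _ one_pos)
  have h1 := schwarz_pick (diffOn_comp hd i) (fun x hx => by
    simpa using coord_lt (hm hx) i)
  rw [(deriv_comp hda i).deriv] at h1
  rw [smul_comp ha i]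
  have h2 : ‖deriv φ 0 i‖ ≤ 1 := h1.trans (by nlinarith [norm_nonneg (φ 0 i)])
  exact mul_le_of_le_one_right a.2 h2

lemma curve_comp {γ : ℝ → Cn n} {t : ℝ} (h : DifferentiableAt ℝ γ t) (i : Fin n) :
    HasDerivAt (fun s => γ s i) (deriv γ t i) t := by
  have := h.hasDerivAt
  rw [hasDerivAt_pi] at this
  exact this i

lemma contOn_comp {γ : ℝ → Cn n} {s : Set ℝ} (h : ContinuousOn γ s) (i : Fin n) :
    ContinuousOn (fun s => γ s i) s := (continuous_apply i).comp_continuousOn h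

/-- first lower bound for the distance -/
lemma dist_low1 {z w : Cn (k + 1)} :
    ENNReal.ofReal |Real.log (-Real.log ‖w 0‖) - Real.log (-Real.log ‖z 0‖)| ≤
      2 * kobDist (Om k m) z w := by
  have key : ENNReal.ofReal |1 / 2 * Real.log (-Real.log ‖w 0‖) -
      1 / 2 * Real.log (-Real.log ‖z 0‖)| ≤ kobDist (Om k m) z w := by
    refine le_iInf fun γ => le_iInf fun hγ => ?_
    have hpos : ∀ t ∈ Icc (0 : ℝ) 1, 0 < ‖γ t 0‖ := fun t ht => (hγ.maps ht).1
    have hlog : ∀ t ∈ Icc (0 : ℝ) 1, 0 < -Real.log ‖γ t 0‖ := fun t ht => by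
      have := Real.log_neg (hpos t ht) (hγ.maps ht).2.1
      linarith
    have := curve_lower hγ (fun t => 1 / 2 * Real.log (-Real.log ‖γ t 0‖))
      (fun t => 1 / 2 * (-(deriv γ t 0 / γ t 0).re / (-Real.log ‖γ t 0‖)))
      (by
        have h1 : ContinuousOn (fun t => γ t 0) (Icc 0 1) := contOn_comp hγ.cont 0
        have h2 : ContinuousOn (fun t => Real.log ‖γ t 0‖) (Icc 0 1) :=
          h1.norm.log (fun t ht => (hpos t ht).ne')
        exact (h2.neg.log (fun t ht => (hlog t ht).ne')).const_mul _)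
      (fun t ht hd => by
        have ht' := Ioo_subset_Icc_self ht
        have h1 := hasDerivAt_log_norm (curve_comp hd 0) (norm_pos_iff.1 (hpos t ht'))
        exact (h1.fun_neg.log (hlog t ht').ne').const_mul _)
      (fun t ht hd => by
        have ht' := Ioo_subset_Icc_self ht
        refine le_trans (ENNReal.ofReal_le_ofReal ?_) (metric_low1 (γ t) (deriv γ t))
        have hl := hlog t ht'
        have hp := hpos t ht'
        rw [abs_mul, abs_of_pos (by norm_num : (0 : ℝ) < 1 / 2), abs_div, abs_of_pos hl, abs_neg]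
        have h1 : |(deriv γ t 0 / γ t 0).re| ≤ ‖deriv γ t 0‖ / ‖γ t 0‖ := by
          rw [← norm_div]; exact Complex.abs_re_le_norm _
        calc (1 : ℝ) / 2 * (|(deriv γ t 0 / γ t 0).re| / -Real.log ‖γ t 0‖)
            ≤ 1 / 2 * ((‖deriv γ t 0‖ / ‖γ t 0‖) / -Real.log ‖γ t 0‖) := by
              gcongr
          _ = ‖deriv γ t 0‖ / (2 * ‖γ t 0‖ * (-Real.log ‖γ t 0‖)) := by
              field_simp)
    simp only [hγ.left, hγ.right] at this
    exact this
  rw [← mul_sub, abs_mul, abs_of_pos (by norm_num : (0 : ℝ) < 1 / 2)] at key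
  calc ENNReal.ofReal |Real.log (-Real.log ‖w 0‖) - Real.log (-Real.log ‖z 0‖)|
      = 2 * ENNReal.ofReal (1 / 2 * |Real.log (-Real.log ‖w 0‖) - Real.log (-Real.log ‖z 0‖)|) := by
        have : (2 : ENNReal) = ENNReal.ofReal 2 := by norm_num
        rw [this, ← ENNReal.ofReal_mul (by norm_num)]
        congr 1; ring
    _ ≤ _ := by gcongr

/-- second lower bound for the distance -/
lemma dist_low2 {z w : Cn (k + 1)} (j : Fin k) :
    ENNReal.ofReal |Real.log (1 - ‖w j.succ / w 0 ^ m‖ ^ 2) -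
      Real.log (1 - ‖z j.succ / z 0 ^ m‖ ^ 2)| ≤ 2 * kobDist (Om k m) z w := by
  have key : ENNReal.ofReal |1 / 2 * Real.log (1 - ‖w j.succ / w 0 ^ m‖ ^ 2) -
      1 / 2 * Real.log (1 - ‖z j.succ / z 0 ^ m‖ ^ 2)| ≤ kobDist (Om k m) z w := by
    refine le_iInf fun γ => le_iInf fun hγ => ?_
    have hne : ∀ t ∈ Icc (0 : ℝ) 1, γ t 0 ≠ 0 := fun t ht => norm_pos_iff.1 (hγ.maps ht).1
    have hlt : ∀ t ∈ Icc (0 : ℝ) 1, ‖γ t j.succ / γ t 0 ^ m‖ < 1 := fun t ht => by
      have h2 : 0 < ‖γ t 0‖ ^ m := pow_pos (hγ.maps ht).1 m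
      rw [norm_div, norm_pow, div_lt_one h2]
      exact (hγ.maps ht).2.2 j
    have hpos : ∀ t ∈ Icc (0 : ℝ) 1, 0 < 1 - ‖γ t j.succ / γ t 0 ^ m‖ ^ 2 := fun t ht => by
      nlinarith [norm_nonneg (γ t j.succ / γ t 0 ^ m), hlt t ht]
    have := curve_lower hγ (fun t => 1 / 2 * Real.log (1 - ‖γ t j.succ / γ t 0 ^ m‖ ^ 2))
      (fun t => 1 / 2 * (-(2 * ((starRingEnd ℂ) (γ t j.succ / γ t 0 ^ m) *
        (deriv γ t j.succ / γ t 0 ^ m - m * γ t j.succ * deriv γ t 0 / γ t 0 ^ (m + 1))).re) /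
          (1 - ‖γ t j.succ / γ t 0 ^ m‖ ^ 2)))
      (by
        have h1 : ContinuousOn (fun t => γ t j.succ / γ t 0 ^ m) (Icc 0 1) :=
          (contOn_comp hγ.cont j.succ).div ((contOn_comp hγ.cont 0).pow m)
            (fun t ht => pow_ne_zero _ (hne t ht))
        exact ((continuousOn_const.sub (h1.norm.pow 2)).log
          (fun t ht => (hpos t ht).ne')).const_mul _)
      (fun t ht hd => by
        have ht' := Ioo_subset_Icc_self ht
        have hq : HasDerivAt (fun t => γ t j.succ / γ t 0 ^ m)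
            (deriv γ t j.succ / γ t 0 ^ m - m * γ t j.succ * deriv γ t 0 / γ t 0 ^ (m + 1)) t := by
          have e := (curve_comp hd j.succ).fun_div ((curve_comp hd 0).fun_pow m)
            (pow_ne_zero _ (hne t ht'))
          refine e.congr_deriv ?_
          have := hne t ht'
          rcases m with _ | m
          · simp
          · simp only [Nat.add_sub_cancel]
            field_simp
            ring
        have h1 := ((hasDerivAt_normSq hq).const_sub 1).log (hpos t ht').ne'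
        exact h1.const_mul _)
      (fun t ht hd => by
        have ht' := Ioo_subset_Icc_self ht
        refine le_trans (ENNReal.ofReal_le_ofReal ?_) (metric_low2 (γ t) (deriv γ t) j)
        set u := γ t j.succ / γ t 0 ^ m with hu
        set u' := deriv γ t j.succ / γ t 0 ^ m - m * γ t j.succ * deriv γ t 0 / γ t 0 ^ (m + 1)
          with hu'
        have hp := hpos t ht'
        have hl := hlt t ht'
        rw [abs_mul, abs_of_pos (by norm_num : (0 : ℝ) < 1 / 2), abs_div, abs_of_pos hp, abs_neg,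
          abs_mul, abs_of_pos (by norm_num : (0 : ℝ) < 2)]
        have h1 : |((starRingEnd ℂ) u * u').re| ≤ ‖u'‖ := by
          refine (Complex.abs_re_le_norm _).trans ?_
          rw [norm_mul, RCLike.norm_conj]
          exact mul_le_of_le_one_left (norm_nonneg _) hl.le
        calc (1 : ℝ) / 2 * (2 * |((starRingEnd ℂ) u * u').re| / (1 - ‖u‖ ^ 2))
            = |((starRingEnd ℂ) u * u').re| / (1 - ‖u‖ ^ 2) := by ring
          _ ≤ ‖u'‖ / (1 - ‖u‖ ^ 2) := by gcongr)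
    simp only [hγ.left, hγ.right] at this
    exact this
  rw [← mul_sub, abs_mul, abs_of_pos (by norm_num : (0 : ℝ) < 1 / 2)] at key
  calc ENNReal.ofReal |Real.log (1 - ‖w j.succ / w 0 ^ m‖ ^ 2) -
        Real.log (1 - ‖z j.succ / z 0 ^ m‖ ^ 2)|
      = 2 * ENNReal.ofReal (1 / 2 * |Real.log (1 - ‖w j.succ / w 0 ^ m‖ ^ 2) -
        Real.log (1 - ‖z j.succ / z 0 ^ m‖ ^ 2)|) := by
        have : (2 : ENNReal) = ENNReal.ofReal 2 := by norm_num
        rw [this, ← ENNReal.ofReal_mul (by norm_num)]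
        congr 1; ring
    _ ≤ _ := by gcongr

/-- third lower bound for the distance -/
lemma dist_low3 {z w : Cn (k + 1)} (i : Fin (k + 1)) :
    ENNReal.ofReal ‖w i - z i‖ ≤ kobDist (Om k m) z w := by
  refine le_iInf fun γ => le_iInf fun hγ => ?_
  obtain ⟨c, hc1, hc2⟩ : ∃ c : ℂ, ‖c‖ = 1 ∧ (c * (w i - z i)).re = ‖w i - z i‖ := by
    by_cases h : w i - z i = 0
    · exact ⟨1, by simp, by rw [h]; simp⟩
    · refine ⟨(starRingEnd ℂ) (w i - z i) / ‖w i - z i‖, ?_, ?_⟩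
      · rw [norm_div, RCLike.norm_conj, Complex.norm_real, norm_norm,
          div_self (norm_ne_zero_iff.2 h)]
      · have h1 : (starRingEnd ℂ) (w i - z i) / (‖w i - z i‖ : ℂ) * (w i - z i) =
          ((‖w i - z i‖ : ℝ) : ℂ) := by
          have h2 : (‖w i - z i‖ : ℂ) ≠ 0 := by
            exact_mod_cast norm_ne_zero_iff.2 h
          field_simp
          rw [mul_comm, ← Complex.normSq_eq_conj_mul_self, Complex.normSq_eq_norm_sq]
          push_cast; ring
        rw [h1, Complex.ofReal_re]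
  have := curve_lower hγ (fun t => (c * γ t i).re) (fun t => (c * deriv γ t i).re)
    (Complex.continuous_re.comp_continuousOn (continuousOn_const.mul (contOn_comp hγ.cont i)))
    (fun t ht hd => by
      have h1 := (curve_comp hd i).const_mul c
      exact Complex.reCLM.hasFDerivAt.comp_hasDerivAt t h1)
    (fun t ht hd => by
      refine le_trans (ENNReal.ofReal_le_ofReal ?_) (metric_low3 (γ t) (deriv γ t) i)
      refine (Complex.abs_re_le_norm _).trans ?_
      rw [norm_mul, hc1, one_mul])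
  simp only [hγ.left, hγ.right] at this
  refine le_trans (ENNReal.ofReal_le_ofReal ?_) this
  rw [← hc2, mul_sub, Complex.sub_re]
  exact le_abs_self _

end lower

section upper

variable {k m : ℕ}

/-- parametrisation of `Om k m` by a half plane times a polydisc -/
noncomputable def Psi (m : ℕ) (g : ℂ) (u : Fin k → ℂ) : Cn (k + 1) :=
  Fin.cons (Complex.exp g) (fun j => Complex.exp (m * g) * u j)

@[simp] lemma Psi_zero (g : ℂ) (u : Fin k → ℂ) : Psi m g u 0 = Complex.exp g := rfl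
@[simp] lemma Psi_succ (g : ℂ) (u : Fin k → ℂ) (j : Fin k) :
    Psi m g u j.succ = Complex.exp (m * g) * u j := rfl

lemma Psi_mem {g : ℂ} {u : Fin k → ℂ} (hg : g.re < 0) (hu : ∀ j, ‖u j‖ < 1) :
    Psi m g u ∈ Om k m := by
  refine ⟨?_, ?_, fun j => ?_⟩
  · simp
  · simp only [Psi_zero]
    rw [Complex.norm_exp]
    exact Real.exp_lt_one_iff.2 hg
  · simp only [Psi_zero, Psi_succ]
    rw [norm_mul, Complex.exp_nat_mul, norm_pow]
    have h1 : 0 < ‖Complex.exp g‖ ^ m := pow_pos (norm_pos_iff.2 (Complex.exp_ne_zero g)) m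
    exact mul_lt_of_lt_one_right h1 (hu j)

lemma exists_Psi {z : Cn (k + 1)} (hz : z ∈ Om k m) :
    z = Psi m (Complex.log (z 0)) (fun j => z j.succ / z 0 ^ m) := by
  have h0 : z 0 ≠ 0 := norm_pos_iff.1 hz.1
  funext i
  refine Fin.cases ?_ (fun j => ?_) i
  · rw [Psi_zero, Complex.exp_log h0]
  · rw [Psi_succ, Complex.exp_nat_mul, Complex.exp_log h0]
    field_simp

lemma coord_lt_one {z : Cn (k + 1)} (hz : z ∈ Om k m) (j : Fin k) :
    ‖z j.succ / z 0 ^ m‖ < 1 := by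
  have h2 : 0 < ‖z 0‖ ^ m := pow_pos hz.1 m
  rw [norm_div, norm_pow, div_lt_one h2]
  exact hz.2.2 j

lemma log_re_neg {z : Cn (k + 1)} (hz : z ∈ Om k m) : (Complex.log (z 0)).re < 0 := by
  rw [Complex.log_re]
  exact Real.log_neg hz.1 hz.2.1

/-- derivative along an affine line in the parameters -/
lemma Psi_line (g b : ℂ) (u c : Fin k → ℂ) (x : ℂ) :
    HasDerivAt (fun y : ℂ => Psi m (g + y * b) (fun j => u j + y * c j))
      (Fin.cons (Complex.exp (g + x * b) * b)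
        (fun j => Complex.exp (m * (g + x * b)) * (m * b) * (u j + x * c j) +
          Complex.exp (m * (g + x * b)) * c j) : Cn (k + 1)) x := by
  rw [hasDerivAt_pi]
  intro i
  have h1 : HasDerivAt (fun y : ℂ => g + y * b) b x := by
    simpa using ((hasDerivAt_id x).mul_const b).const_add g
  refine Fin.cases ?_ (fun j => ?_) i
  · simp only [Psi_zero, Fin.cons_zero]
    exact h1.cexp
  · simp only [Psi_succ, Fin.cons_succ]
    have h2 : HasDerivAt (fun y : ℂ => u j + y * c j) (c j) x := by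
      simpa using ((hasDerivAt_id x).mul_const (c j)).const_add (u j)
    exact (h1.const_mul (m : ℂ)).cexp.fun_mul h2

lemma metric_up {g κ0 : ℂ} {u κ : Fin k → ℂ} (hg : g.re < 0) (hu : ∀ j, ‖u j‖ < 1)
    (a : ℝ≥0) (h0 : ‖κ0‖ ≤ a * (-g.re)) (hj : ∀ j, ‖κ j‖ ≤ a * (1 - ‖u j‖)) :
    kobMetric (Om k m) (Psi m g u) (Fin.cons (Complex.exp g * κ0)
      (fun j => Complex.exp (m * g) * (m * κ0) * u j + Complex.exp (m * g) * κ j)) ≤ a := by
  set A : ℂ := ((a : ℝ) : ℂ) with hA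
  have hdiv : ∀ (x : ℂ) (r : ℝ), 0 ≤ r → ‖x‖ ≤ a * r → ‖x / A‖ ≤ r := by
    intro x r hr hx
    rw [norm_div, hA, Complex.norm_real, Real.norm_eq_abs, abs_of_nonneg (NNReal.coe_nonneg a)]
    exact div_le_of_le_mul₀ (NNReal.coe_nonneg a) hr (by rwa [mul_comm])
  have hmul : ∀ (x : ℂ) (r : ℝ), ‖x‖ ≤ a * r → A * (x / A) = x := by
    intro x r hx
    by_cases h : A = 0
    · have ha : (a : ℝ) = 0 := by
        rw [hA] at h; exact_mod_cast h
      rw [ha, zero_mul] at hx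
      have : x = 0 := norm_le_zero_iff.1 hx
      rw [this]; simp
    · field_simp
  have hlt : ∀ (x y : ℂ) (r : ℝ), 0 < r → ‖x‖ ≤ a * r → y ∈ ball (0 : ℂ) 1 →
      ‖y * (x / A)‖ < r := by
    intro x y r hr hx hy
    rw [norm_mul]
    have h1 := hdiv x r hr.le hx
    have h2 : ‖y‖ < 1 := by simpa using hy
    calc ‖y‖ * ‖x / A‖ ≤ ‖y‖ * r := mul_le_mul_of_nonneg_left h1 (norm_nonneg _)
      _ < 1 * r := mul_lt_mul_of_pos_right h2 hr
      _ = r := one_mul r
  apply kobMetric_le (φ := fun y : ℂ => Psi m (g + y * (κ0 / A)) (fun j => u j + y * (κ j / A)))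
  · intro y _
    exact (Psi_line g (κ0 / A) u (fun j => κ j / A) y).differentiableAt.differentiableWithinAt
  · intro y hy
    apply Psi_mem
    · have h1 := hlt κ0 y (-g.re) (by linarith) h0 hy
      have h2 := Complex.abs_re_le_norm (y * (κ0 / A))
      have h3 := (abs_le.1 (h2.trans h1.le)).2
      have h4 : (y * (κ0 / A)).re < -g.re :=
        lt_of_le_of_lt (le_abs_self _) (lt_of_le_of_lt h2 h1)
      rw [Complex.add_re]; linarith
    · intro j
      have h1 := hlt (κ j) y (1 - ‖u j‖) (by linarith [hu j]) (hj j) hy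
      have h2 := norm_add_le (u j) (y * (κ j / A))
      linarith
  · simp [Psi]
  · rw [(Psi_line g (κ0 / A) u (fun j => κ j / A) 0).deriv]
    funext i
    refine Fin.cases ?_ (fun j => ?_) i
    · simp only [Pi.smul_apply, Fin.cons_zero, zero_mul, add_zero, smul_eq_mul]
      have := hmul κ0 _ h0
      calc A * (Complex.exp g * (κ0 / A)) = Complex.exp g * (A * (κ0 / A)) := by ring
        _ = _ := by rw [this]
    · simp only [Pi.smul_apply, Fin.cons_succ, zero_mul, add_zero, smul_eq_mul]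
      have h1 := hmul κ0 _ h0
      have h2 := hmul (κ j) _ (hj j)
      calc A * (Complex.exp (m * g) * (m * (κ0 / A)) * u j + Complex.exp (m * g) * (κ j / A))
          = Complex.exp (m * g) * (m * (A * (κ0 / A))) * u j +
            Complex.exp (m * g) * (A * (κ j / A)) := by ring
        _ = _ := by rw [h1, h2]

lemma norm_segment_le (x y : ℂ) (t : ℝ) (ht : t ∈ Icc (0 : ℝ) 1) (r : ℝ) (hx : ‖x‖ ≤ r)
    (hy : ‖y‖ ≤ r) : ‖x + (t : ℂ) * (y - x)‖ ≤ r := by
  have e : x + (t : ℂ) * (y - x) = ((1 - t : ℝ) : ℂ) * x + (t : ℂ) * y := by push_cast; ring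
  rw [e]
  refine (norm_add_le _ _).trans ?_
  rw [norm_mul, norm_mul, Complex.norm_real, Complex.norm_real, Real.norm_eq_abs,
    Real.norm_eq_abs, abs_of_nonneg ht.1, abs_of_nonneg (by linarith [ht.2])]
  nlinarith [ht.1, ht.2]

/-- upper bound for the distance -/
lemma dist_up {g0 g1 : ℂ} {u0 u1 : Fin k → ℂ} (a : ℝ≥0) (b : ℝ) (c : Fin k → ℝ) (hb : 0 < b)
    (hc : ∀ j, 0 < c j) (h0 : b ≤ -g0.re) (h1 : b ≤ -g1.re) (h2 : ∀ j, c j ≤ 1 - ‖u0 j‖)
    (h3 : ∀ j, c j ≤ 1 - ‖u1 j‖) (h4 : ‖g1 - g0‖ ≤ a * b)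
    (h5 : ∀ j, ‖u1 j - u0 j‖ ≤ a * c j) :
    kobDist (Om k m) (Psi m g0 u0) (Psi m g1 u1) ≤ a := by
  let F : ℂ → Cn (k + 1) := fun y => Psi m (g0 + y * (g1 - g0)) (fun j => u0 j + y * (u1 j - u0 j))
  have hre : ∀ t ∈ Icc (0 : ℝ) 1, b ≤ -(g0 + (t : ℂ) * (g1 - g0)).re := by
    intro t ht
    simp only [Complex.add_re, Complex.mul_re, Complex.ofReal_re, Complex.ofReal_im,
      Complex.sub_re, zero_mul, sub_zero]
    nlinarith [ht.1, ht.2]
  have hu : ∀ t ∈ Icc (0 : ℝ) 1, ∀ j, ‖u0 j + (t : ℂ) * (u1 j - u0 j)‖ ≤ 1 - c j := by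
    intro t ht j
    exact norm_segment_le _ _ t ht _ (by linarith [h2 j]) (by linarith [h3 j])
  have hder : ∀ t : ℝ, HasDerivAt (fun s : ℝ => F s)
      (Fin.cons (Complex.exp (g0 + t * (g1 - g0)) * (g1 - g0))
        (fun j => Complex.exp (m * (g0 + t * (g1 - g0))) * (m * (g1 - g0)) *
          (u0 j + t * (u1 j - u0 j)) +
          Complex.exp (m * (g0 + t * (g1 - g0))) * (u1 j - u0 j)) : Cn (k + 1)) t := by
    intro t
    have h := Psi_line (m := m) g0 (g1 - g0) u0 (fun j => u1 j - u0 j) (t : ℂ)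
    rw [hasDerivAt_pi] at h ⊢
    intro i
    exact (h i).comp_ofReal
  have hcd : ContDiff ℝ 1 (fun s : ℝ => F s) := by
    have hofr : ContDiff ℝ 1 (fun t : ℝ => (t : ℂ)) := Complex.ofRealCLM.contDiff
    rw [contDiff_pi]
    intro i
    refine Fin.cases ?_ (fun j => ?_) i
    · exact (contDiff_const.add (hofr.mul contDiff_const)).cexp
    · exact (contDiff_const.mul (contDiff_const.add (hofr.mul contDiff_const))).cexp.mul
        (contDiff_const.add (hofr.mul contDiff_const))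
  have hcurve : IsCurve (Om k m) (Psi m g0 u0) (Psi m g1 u1) (fun s : ℝ => F s) := by
    refine ⟨hcd.continuous.continuousOn, ?_, ?_, ?_, ∅, fun t _ _ => hcd.contDiffAt⟩
    · intro t ht
      apply Psi_mem
      · have := hre t ht
        linarith
      · intro j
        have := hu t ht j
        linarith [hc j]
    · simp [F]
    · simp [F]
  refine iInf_le_of_le _ (iInf_le_of_le hcurve ?_)
  have hle : kobLength (Om k m) (fun s : ℝ => F s) ≤ ∫⁻ _ in Icc (0 : ℝ) 1, (a : ℝ≥0∞) := by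
    refine setLIntegral_mono' measurableSet_Icc ?_
    intro t ht
    rw [(hder t).deriv]
    apply metric_up
    · have := hre t ht
      linarith
    · intro j
      have := hu t ht j
      linarith [hc j]
    · exact h4.trans (mul_le_mul_of_nonneg_left (hre t ht) (NNReal.coe_nonneg a))
    · intro j
      refine (h5 j).trans (mul_le_mul_of_nonneg_left ?_ (NNReal.coe_nonneg a))
      linarith [hu t ht j]
  refine hle.trans ?_
  simp

/-- the distance is locally controlled by the norm -/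
lemma dist_local {n : ℕ} {Ω : Set (Cn n)} {b q : Cn n} {ε : ℝ} (hε : 0 < ε)
    (hball : ball b ε ⊆ Ω) (hq : ‖q - b‖ < ε / 2) :
    kobDist Ω q b ≤ ENNReal.ofReal (2 * ‖q - b‖ / ε) := by
  set v := b - q with hv
  have hvn : ‖v‖ = ‖q - b‖ := by rw [hv, norm_sub_rev]
  set a : ℝ≥0 := Real.toNNReal (2 * ‖q - b‖ / ε) with ha
  have haa : (a : ℝ) = 2 * ‖v‖ / ε := by
    rw [ha, Real.coe_toNNReal _ (by positivity), hvn]
  set A : ℂ := ((a : ℝ) : ℂ) with hA
  let γ : ℝ → Cn n := fun t => q + (t : ℝ) • v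
  have hcd : ContDiff ℝ 1 γ := contDiff_const.add (contDiff_id.smul contDiff_const)
  have hγ : ∀ t ∈ Icc (0 : ℝ) 1, ‖γ t - b‖ < ε / 2 := by
    intro t ht
    have e : γ t - b = (1 - t) • (q - b) := by
      simp only [γ, hv]; module
    rw [e, norm_smul, Real.norm_eq_abs, abs_of_nonneg (by linarith [ht.2])]
    refine lt_of_le_of_lt ?_ hq
    exact mul_le_of_le_one_left (norm_nonneg _) (by linarith [ht.1])
  have hder : ∀ t : ℝ, HasDerivAt γ v t := by
    intro t
    have h : HasDerivAt (fun s : ℝ => q + s • v) ((1 : ℝ) • v) t :=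
      ((hasDerivAt_id t).smul_const v).const_add q
    rw [one_smul] at h
    exact h
  have hcurve : IsCurve Ω q b γ := by
    refine ⟨hcd.continuous.continuousOn, ?_, by simp [γ], by simp [γ, hv], ∅,
      fun t _ _ => hcd.contDiffAt⟩
    intro t ht
    apply hball
    rw [mem_ball, dist_eq_norm]
    linarith [hγ t ht]
  refine iInf_le_of_le _ (iInf_le_of_le hcurve ?_)
  have hle : kobLength Ω γ ≤ ∫⁻ _ in Icc (0 : ℝ) 1, (a : ℝ≥0∞) := by
    refine setLIntegral_mono' measurableSet_Icc ?_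
    intro t ht
    rw [(hder t).deriv]
    have hAv : A • (A⁻¹ • v) = v := by
      by_cases h : A = 0
      · have h1 : (a : ℝ) = 0 := by rw [hA] at h; exact_mod_cast h
        rw [haa] at h1
        have h2 : ‖v‖ = 0 := by
          rcases div_eq_zero_iff.1 h1 with h3 | h3
          · linarith
          · exact absurd h3 hε.ne'
        rw [norm_eq_zero.1 h2]; simp
      · rw [smul_smul, mul_inv_cancel₀ h, one_smul]
    have hAn : ‖A⁻¹ • v‖ ≤ ε / 2 := by
      rw [norm_smul, norm_inv, hA, Complex.norm_real, Real.norm_eq_abs,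
        abs_of_nonneg (NNReal.coe_nonneg a), haa]
      by_cases h : ‖v‖ = 0
      · rw [h]; simp; linarith
      · have : (2 * ‖v‖ / ε)⁻¹ * ‖v‖ = ε / 2 := by field_simp
        rw [this]
    have hd : ∀ y : ℂ, HasDerivAt (fun y : ℂ => γ t + y • (A⁻¹ • v)) (A⁻¹ • v) y := by
      intro y
      have := ((hasDerivAt_id y).smul_const (A⁻¹ • v)).const_add (γ t)
      simpa using this
    apply kobMetric_le (φ := fun y : ℂ => γ t + y • (A⁻¹ • v))
    · intro y _
      exact (hd y).differentiableAt.differentiableWithinAt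
    · intro y hy
      apply hball
      rw [mem_ball, dist_eq_norm]
      have e : γ t + y • (A⁻¹ • v) - b = (γ t - b) + y • (A⁻¹ • v) := by abel
      rw [e]
      have h1 : ‖y • (A⁻¹ • v)‖ ≤ ε / 2 := by
        rw [norm_smul]
        have hy1 : ‖y‖ ≤ 1 := by
          have : ‖y‖ < 1 := by simpa using hy
          exact this.le
        calc ‖y‖ * ‖A⁻¹ • v‖ ≤ 1 * (ε / 2) :=
              mul_le_mul hy1 hAn (norm_nonneg _) zero_le_one
          _ = ε / 2 := one_mul _
      have := norm_add_le (γ t - b) (y • (A⁻¹ • v))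
      linarith [hγ t ht]
    · simp
    · rw [(hd 0).deriv]
      exact hAv
  refine hle.trans ?_
  simp [ha, ENNReal.ofReal]

lemma isOpen_Om : IsOpen (Om k m) := by
  have e : Om k m = {z : Cn (k + 1) | 0 < ‖z 0‖} ∩ {z : Cn (k + 1) | ‖z 0‖ < 1} ∩
      ⋂ j : Fin k, {z : Cn (k + 1) | ‖z j.succ‖ < ‖z 0‖ ^ m} := by
    ext z
    simp only [Om, Set.mem_ofPred_eq, mem_inter_iff, mem_iInter]
    tauto
  rw [e]
  have h0 : Continuous (fun z : Cn (k + 1) => ‖z 0‖) := (continuous_apply 0).norm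
  refine ((isOpen_lt continuous_const h0).inter (isOpen_lt h0 continuous_const)).inter ?_
  exact isOpen_iInter_of_finite fun j => isOpen_lt (continuous_apply j.succ).norm (h0.pow m)

lemma isConnected_Om : IsConnected (Om k m) := by
  let T : Set (ℂ × (Fin k → ℂ)) := {x | x.1.re < 0} ∩ {x | ∀ j, ‖x.2 j‖ < 1}
  have hT : Convex ℝ T := by
    refine Convex.inter ?_ ?_
    · intro x hx y hy a b ha hb hab
      simp only [Set.mem_ofPred_eq] at hx hy ⊢
      simp only [Prod.fst_add, Prod.smul_fst, Complex.add_re, Complex.smul_re, smul_eq_mul]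
      rcases ha.eq_or_lt with h | h
      · have : b = 1 := by linarith
        rw [← h, this]; linarith
      · nlinarith
    · intro x hx y hy a b ha hb hab j
      simp only [Set.mem_ofPred_eq] at hx hy
      have h1 : ‖(a • x + b • y).2 j‖ ≤ a * ‖x.2 j‖ + b * ‖y.2 j‖ := by
        simp only [Prod.snd_add, Prod.smul_snd, Pi.add_apply, Pi.smul_apply]
        refine (norm_add_le _ _).trans ?_
        rw [norm_smul, norm_smul, Real.norm_eq_abs, Real.norm_eq_abs, abs_of_nonneg ha,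
          abs_of_nonneg hb]
      rcases ha.eq_or_lt with h | h
      · have : b = 1 := by linarith
        rw [← h, this] at h1 ⊢
        linarith [hy j]
      · nlinarith [hx j, hy j]
  have hne : T.Nonempty := ⟨(-1, fun _ => 0), by simp, fun j => by simp⟩
  have hcont : Continuous (fun x : ℂ × (Fin k → ℂ) => Psi m x.1 x.2) := by
    refine continuous_pi fun i => ?_
    refine Fin.cases ?_ (fun j => ?_) i
    · simp only [Psi_zero]; fun_prop
    · simp only [Psi_succ]; fun_prop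
  have himg : (fun x : ℂ × (Fin k → ℂ) => Psi m x.1 x.2) '' T = Om k m := by
    ext z
    constructor
    · rintro ⟨x, hx, rfl⟩
      exact Psi_mem hx.1 hx.2
    · intro hz
      exact ⟨(Complex.log (z 0), fun j => z j.succ / z 0 ^ m),
        ⟨log_re_neg hz, coord_lt_one hz⟩, (exists_Psi hz).symm⟩
  rw [← himg]
  exact ⟨hne.image _, hT.isPreconnected.image _ hcont.continuousOn⟩

lemma isBounded_Om : Bornology.IsBounded (Om k m) := by
  refine (Metric.isBounded_ball (x := (0 : Cn (k + 1))) (r := 2)).subset ?_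
  intro z hz
  rw [mem_ball_zero_iff]
  have : ‖z‖ ≤ 1 := (pi_norm_le_iff_of_nonneg zero_le_one).2 fun i => (coord_lt hz i).le
  linarith

end upper

section complete

variable {k m : ℕ}

lemma real_of_low {x : ℝ} {d : ℝ≥0∞} {c : ℝ≥0} (h : ENNReal.ofReal x ≤ 2 * d) (hd : d ≤ c) :
    x ≤ 2 * c := by
  have h1 : ENNReal.ofReal x ≤ 2 * c := h.trans (by gcongr)
  have h2 : (2 * c : ℝ≥0∞) = ((2 * c : ℝ≥0) : ℝ≥0∞) := by push_cast; rfl
  rw [h2] at h1
  have h3 := ENNReal.toReal_mono (ENNReal.coe_ne_top) h1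
  rw [ENNReal.coe_toReal] at h3
  have h4 : x ≤ (ENNReal.ofReal x).toReal := by
    rw [ENNReal.toReal_ofReal']; exact le_max_left _ _
  have h5 := h4.trans h3
  push_cast at h5
  exact h5

theorem complete_Om : KobComplete (Om k m) := by
  refine ⟨?_, ?_, ?_⟩
  · intro z hz w hw
    set g0 := Complex.log (z 0)
    set g1 := Complex.log (w 0)
    set u0 : Fin k → ℂ := fun j => z j.succ / z 0 ^ m
    set u1 : Fin k → ℂ := fun j => w j.succ / w 0 ^ m
    have hg0 : g0.re < 0 := log_re_neg hz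
    have hg1 : g1.re < 0 := log_re_neg hw
    have hu0 : ∀ j, ‖u0 j‖ < 1 := coord_lt_one hz
    have hu1 : ∀ j, ‖u1 j‖ < 1 := coord_lt_one hw
    have hb : 0 < min (-g0.re) (-g1.re) := lt_min (by linarith) (by linarith)
    have hc : ∀ j, 0 < min (1 - ‖u0 j‖) (1 - ‖u1 j‖) := fun j =>
      lt_min (by linarith [hu0 j]) (by linarith [hu1 j])
    set A : ℝ := ‖g1 - g0‖ / min (-g0.re) (-g1.re) +
      ∑ j, ‖u1 j - u0 j‖ / min (1 - ‖u0 j‖) (1 - ‖u1 j‖) with hA
    have hterm : ∀ j ∈ (Finset.univ : Finset (Fin k)),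
        0 ≤ ‖u1 j - u0 j‖ / min (1 - ‖u0 j‖) (1 - ‖u1 j‖) := fun j _ =>
      div_nonneg (norm_nonneg _) (hc j).le
    have hA0 : 0 ≤ A := add_nonneg (div_nonneg (norm_nonneg _) hb.le) (Finset.sum_nonneg hterm)
    have h := dist_up (k := k) (m := m) (g0 := g0) (g1 := g1) (u0 := u0) (u1 := u1)
      (Real.toNNReal A) (min (-g0.re) (-g1.re)) (fun j => min (1 - ‖u0 j‖) (1 - ‖u1 j‖)) hb hc
      (min_le_left _ _) (min_le_right _ _) (fun j => min_le_left _ _) (fun j => min_le_right _ _)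
      (by
        rw [Real.coe_toNNReal _ hA0, ← div_le_iff₀ hb]
        exact le_add_of_nonneg_right (Finset.sum_nonneg hterm))
      (fun j => by
        rw [Real.coe_toNNReal _ hA0, ← div_le_iff₀ (hc j)]
        refine (Finset.single_le_sum hterm (Finset.mem_univ j)).trans ?_
        exact le_add_of_nonneg_left (div_nonneg (norm_nonneg _) hb.le))
    rw [← exists_Psi hz, ← exists_Psi hw] at h
    exact ne_top_of_le_ne_top ENNReal.coe_ne_top h
  · intro z hz w hw h
    funext i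
    have h1 := dist_low3 (k := k) (m := m) (z := z) (w := w) i
    rw [h] at h1
    have h2 : ‖w i - z i‖ ≤ 0 := ENNReal.ofReal_eq_zero.1 (le_antisymm h1 bot_le)
    have h3 := norm_le_zero_iff.1 h2
    exact (sub_eq_zero.1 h3).symm
  · intro a ha hcau
    have hcs : CauchySeq a := by
      rw [Metric.cauchySeq_iff]
      intro ε hε
      obtain ⟨N, hN⟩ := hcau (ENNReal.ofReal ε) (ENNReal.ofReal_pos.2 hε)
      refine ⟨N, fun i hi j hj => ?_⟩
      rw [dist_eq_norm, pi_norm_lt_iff hε]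
      intro l
      have h1 := (dist_low3 (k := k) (m := m) (z := a j) (w := a i) l).trans_lt (hN j hj i hi)
      exact (ENNReal.ofReal_lt_ofReal_iff hε).1 h1
    obtain ⟨b, hb⟩ := cauchySeq_tendsto_of_complete hcs
    obtain ⟨N, hN⟩ := hcau 1 one_pos
    have hcoord : ∀ l, Tendsto (fun i => a i l) atTop (𝓝 (b l)) := fun l =>
      (tendsto_pi_nhds.1 hb) l
    set L := -Real.log ‖a N 0‖ with hL
    have hLpos : 0 < L := by
      have := Real.log_neg (ha N).1 (ha N).2.1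
      linarith
    have hLi : ∀ i, 0 < -Real.log ‖a i 0‖ := fun i => by
      have := Real.log_neg (ha i).1 (ha i).2.1
      linarith
    have hrange : ∀ i ≥ N, Real.exp (-(L * Real.exp 2)) ≤ ‖a i 0‖ ∧
        ‖a i 0‖ ≤ Real.exp (-(L * Real.exp (-2))) := by
      intro i hi
      have h1 := real_of_low (c := 1) (dist_low1 (k := k) (m := m) (z := a N) (w := a i))
        (by simpa using (hN N le_rfl i hi).le)
      rw [NNReal.coe_one, mul_one, abs_le] at h1
      have h2 : -Real.log ‖a i 0‖ ≤ L * Real.exp 2 := by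
        rw [← Real.log_le_log_iff (hLi i) (by positivity), Real.log_mul hLpos.ne' (by positivity),
          Real.log_exp]
        linarith [h1.2]
      have h3 : L * Real.exp (-2) ≤ -Real.log ‖a i 0‖ := by
        rw [← Real.log_le_log_iff (by positivity) (hLi i), Real.log_mul hLpos.ne' (by positivity),
          Real.log_exp]
        linarith [h1.1]
      constructor
      · rw [← Real.le_log_iff_exp_le (ha i).1]; linarith
      · rw [← Real.log_le_iff_le_exp (ha i).1]; linarith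
    have hb0 : Real.exp (-(L * Real.exp 2)) ≤ ‖b 0‖ ∧ ‖b 0‖ ≤ Real.exp (-(L * Real.exp (-2))) :=
      ⟨ge_of_tendsto (hcoord 0).norm (eventually_atTop.2 ⟨N, fun i hi => (hrange i hi).1⟩),
        le_of_tendsto (hcoord 0).norm (eventually_atTop.2 ⟨N, fun i hi => (hrange i hi).2⟩)⟩
    have hbpos : 0 < ‖b 0‖ := lt_of_lt_of_le (Real.exp_pos _) hb0.1
    have hblt : ‖b 0‖ < 1 := lt_of_le_of_lt hb0.2 (Real.exp_lt_one_iff.2 (by
      have : 0 < L * Real.exp (-2) := by positivity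
      linarith))
    have hbO : b ∈ Om k m := by
      refine ⟨hbpos, hblt, fun j => ?_⟩
      set η := (1 - ‖a N j.succ / a N 0 ^ m‖ ^ 2) * Real.exp (-2) with hη
      have hη0 : 0 < η := by
        have h1 := coord_lt_one (ha N) j
        have h2 : 0 < 1 - ‖a N j.succ / a N 0 ^ m‖ ^ 2 := by
          nlinarith [norm_nonneg (a N j.succ / a N 0 ^ m)]
        positivity
      have hi : ∀ i ≥ N, ‖a i j.succ‖ ^ 2 ≤ (1 - η) * (‖a i 0‖ ^ m) ^ 2 := by
        intro i hi
        have h1 := real_of_low (c := 1) (dist_low2 (k := k) (m := m) (z := a N) (w := a i) j)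
          (by simpa using (hN N le_rfl i hi).le)
        rw [NNReal.coe_one, mul_one, abs_le] at h1
        have p1 : 0 < 1 - ‖a i j.succ / a i 0 ^ m‖ ^ 2 := by
          nlinarith [norm_nonneg (a i j.succ / a i 0 ^ m), coord_lt_one (ha i) j]
        have p2 : 0 < 1 - ‖a N j.succ / a N 0 ^ m‖ ^ 2 := by
          nlinarith [norm_nonneg (a N j.succ / a N 0 ^ m), coord_lt_one (ha N) j]
        have h2 : η ≤ 1 - ‖a i j.succ / a i 0 ^ m‖ ^ 2 := by
          rw [← Real.log_le_log_iff hη0 p1, hη, Real.log_mul p2.ne' (by positivity), Real.log_exp]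
          linarith [h1.1]
        have h3 : 0 < ‖a i 0‖ ^ m := pow_pos (ha i).1 m
        have h4 : ‖a i j.succ‖ = ‖a i j.succ / a i 0 ^ m‖ * ‖a i 0‖ ^ m := by
          rw [norm_div, norm_pow]; field_simp
        rw [h4, mul_pow]
        apply mul_le_mul_of_nonneg_right _ (by positivity)
        linarith
      have hlim1 : Tendsto (fun i => ‖a i j.succ‖ ^ 2) atTop (𝓝 (‖b j.succ‖ ^ 2)) :=
        (hcoord j.succ).norm.pow 2
      have hlim2 : Tendsto (fun i => (1 - η) * (‖a i 0‖ ^ m) ^ 2) atTop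
          (𝓝 ((1 - η) * (‖b 0‖ ^ m) ^ 2)) := (((hcoord 0).norm.pow m).pow 2).const_mul _
      have hle : ‖b j.succ‖ ^ 2 ≤ (1 - η) * (‖b 0‖ ^ m) ^ 2 :=
        le_of_tendsto_of_tendsto hlim1 hlim2 (eventually_atTop.2 ⟨N, hi⟩)
      have h5 : 0 < ‖b 0‖ ^ m := pow_pos hbpos m
      apply lt_of_pow_lt_pow_left₀ 2 h5.le
      refine lt_of_le_of_lt hle ?_
      have h6 : 0 < (‖b 0‖ ^ m) ^ 2 := by positivity
      nlinarith
    refine ⟨b, hbO, ?_⟩
    obtain ⟨ε, hε, hball⟩ := Metric.isOpen_iff.1 (isOpen_Om (k := k) (m := m)) b hbO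
    have hn : Tendsto (fun i => ‖a i - b‖) atTop (𝓝 0) := tendsto_iff_norm_sub_tendsto_zero.1 hb
    have hup : ∀ᶠ i in atTop, kobDist (Om k m) (a i) b ≤ ENNReal.ofReal (2 * ‖a i - b‖ / ε) := by
      filter_upwards [hn.eventually (gt_mem_nhds (half_pos hε))] with i hi
      exact dist_local hε hball hi
    have hlim : Tendsto (fun i => ENNReal.ofReal (2 * ‖a i - b‖ / ε)) atTop (𝓝 0) := by
      have h1 : Tendsto (fun i => 2 * ‖a i - b‖ / ε) atTop (𝓝 (2 * 0 / ε)) :=
        (hn.const_mul 2).div_const ε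
      have h2 := ENNReal.tendsto_ofReal h1
      simpa using h2
    exact tendsto_of_tendsto_of_tendsto_of_le_of_le' tendsto_const_nhds hlim
      (Eventually.of_forall fun _ => bot_le) hup

end complete

section estimate

variable {k m : ℕ}

/-- the centre of the balls -/
noncomputable def ctr (k : ℕ) (x : ℝ) : Cn (k + 1) := Fin.cons (x : ℂ) (fun _ => 0)

lemma ctr_mem {x : ℝ} (hx0 : 0 < x) (hx1 : x < 1) : ctr k x ∈ Om k m := by
  refine ⟨?_, ?_, fun j => ?_⟩
  · simp [ctr, hx0.ne']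
  · simp [ctr, abs_of_pos hx0, hx1]
  · simp [ctr, hx0.ne']

lemma ctr_eq {x : ℝ} (hx0 : 0 < x) :
    ctr k x = Psi m ((Real.log x : ℝ) : ℂ) (fun _ => 0) := by
  funext i
  refine Fin.cases ?_ (fun j => ?_) i
  · simp only [ctr, Psi_zero, Fin.cons_zero]
    rw [← Complex.ofReal_exp, Real.exp_log hx0]
  · simp [ctr]

/-- a part of the ball -/
lemma box_mem {r x X : ℝ} (hr0 : 0 < r) (hr1 : r ≤ 1 / 8) (hx0 : 0 < x) (hx1 : x < 1)
    (hX : X = x ^ (1 / (1 + r / 2))) (h1 : Real.pi ≤ r / 4 * (1 / (1 + r / 2)) * (-Real.log x))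
    (h2 : x ≤ X / 2) {z : Cn (k + 1)} (hz0 : X / 2 < ‖z 0‖) (hz1 : ‖z 0‖ < X)
    (hz : ∀ j : Fin k, ‖z j.succ‖ < r / 4 * (X / 2) ^ m) : z ∈ kobBall (Om k m) (ctr k x) r := by
  set β := 1 / (1 + r / 2) with hβ
  have hβ0 : 0 < β := by positivity
  set Λ := -Real.log x with hΛ
  have hΛ0 : 0 < Λ := by
    have := Real.log_neg hx0 hx1
    linarith
  have hX0 : 0 < X := by rw [hX]; exact Real.rpow_pos_of_pos hx0 _
  have hX1 : X < 1 := by rw [hX]; exact Real.rpow_lt_one hx0.le hx1 hβ0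
  have hlogX : Real.log X = -(β * Λ) := by
    rw [hX, Real.log_rpow hx0, hΛ]; ring
  have hzpos : 0 < ‖z 0‖ := lt_trans (by positivity) hz0
  have hzO : z ∈ Om k m := by
    refine ⟨hzpos, hz1.trans hX1, fun j => (hz j).trans_le ?_⟩
    have h3 : (X / 2) ^ m ≤ ‖z 0‖ ^ m := pow_le_pow_left₀ (by positivity) hz0.le m
    have h4 : 0 < (X / 2) ^ m := by positivity
    nlinarith
  have hu : ∀ j : Fin k, ‖z j.succ / z 0 ^ m‖ < r / 4 := by
    intro j
    have h3 : (X / 2) ^ m ≤ ‖z 0‖ ^ m := pow_le_pow_left₀ (by positivity) hz0.le m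
    rw [norm_div, norm_pow, div_lt_iff₀ (pow_pos hzpos m)]
    refine (hz j).trans_le ?_
    exact mul_le_mul_of_nonneg_left h3 (by positivity)
  have hlz1 : Real.log ‖z 0‖ < -(β * Λ) := by
    rw [← hlogX]; exact Real.log_lt_log hzpos hz1
  have hlz2 : -Λ ≤ Real.log ‖z 0‖ := by
    rw [hΛ, neg_neg]
    exact Real.log_le_log hx0 (h2.trans hz0.le)
  refine ⟨hzO, ?_⟩
  have hd := dist_up (k := k) (m := m) (g0 := ((Real.log x : ℝ) : ℂ)) (g1 := Complex.log (z 0))
    (u0 := fun _ => 0) (u1 := fun j => z j.succ / z 0 ^ m) (Real.toNNReal (3 * r / 4))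
    (-Real.log ‖z 0‖) (fun _ => 1 - r / 4) (by nlinarith) (fun _ => by linarith)
    (by rw [Complex.ofReal_re]; linarith) (by rw [Complex.log_re]) (fun _ => by simp; linarith)
    (fun j => by linarith [hu j])
    (by
      rw [Real.coe_toNNReal _ (by positivity)]
      have e : ‖Complex.log (z 0) - ((Real.log x : ℝ) : ℂ)‖ ≤ (Real.log ‖z 0‖ + Λ) + Real.pi := by
        refine (Complex.norm_le_abs_re_add_abs_im _).trans ?_
        rw [Complex.sub_re, Complex.sub_im, Complex.log_re, Complex.log_im, Complex.ofReal_re,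
          Complex.ofReal_im, sub_zero, abs_of_nonneg (by linarith)]
        have := Complex.abs_arg_le_pi (z 0)
        linarith
      refine e.trans ?_
      have hβr : β * (1 + r / 2) = 1 := by rw [hβ]; field_simp
      nlinarith [mul_pos hβ0 hΛ0])
    (fun j => by
      rw [Real.coe_toNNReal _ (by positivity), sub_zero]
      nlinarith [hu j])
  rw [← exists_Psi hzO, ← ctr_eq hx0] at hd
  refine lt_of_le_of_lt hd ?_
  change ENNReal.ofReal (3 * r / 4) < _
  rw [ENNReal.ofReal_lt_ofReal_iff hr0]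
  linarith

/-- a set containing the ball -/
lemma ball_sub {r x : ℝ} (hr0 : 0 < r) (hx0 : 0 < x) (hx1 : x < 1) {z : Cn (k + 1)}
    (hz : z ∈ kobBall (Om k m) (ctr k x) r) : x ^ (Real.exp (2 * r)) ≤ ‖z 0‖ := by
  have hΛ0 : 0 < -Real.log x := by
    have := Real.log_neg hx0 hx1
    linarith
  have hlz : 0 < -Real.log ‖z 0‖ := by
    have := Real.log_neg hz.1.1 hz.1.2.1
    linarith
  have h1 := real_of_low (c := Real.toNNReal r)
    (dist_low1 (k := k) (m := m) (z := ctr k x) (w := z)) hz.2.le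
  rw [Real.coe_toNNReal _ hr0.le, abs_le] at h1
  have hc : ‖ctr k x 0‖ = x := by simp [ctr, abs_of_pos hx0]
  rw [hc] at h1
  have h2 : -Real.log ‖z 0‖ ≤ -Real.log x * Real.exp (2 * r) := by
    rw [← Real.log_le_log_iff hlz (by positivity), Real.log_mul hΛ0.ne' (by positivity),
      Real.log_exp]
    linarith [h1.2]
  rw [← Real.log_le_log_iff (Real.rpow_pos_of_pos hx0 _) hz.1.1, Real.log_rpow hx0]
  linarith

/-- volume of a polydisc type set -/
lemma vol_box (c : ℂ) (R ρ : ℝ) (hR : 0 ≤ R) (hρ : 0 ≤ ρ) :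
    volume {z : Cn (k + 1) | z 0 ∈ ball c R ∧ ∀ j : Fin k, z j.succ ∈ ball (0 : ℂ) ρ} =
      ENNReal.ofReal (Real.pi * R ^ 2 * (Real.pi * ρ ^ 2) ^ k) := by
  have e : {z : Cn (k + 1) | z 0 ∈ ball c R ∧ ∀ j : Fin k, z j.succ ∈ ball (0 : ℂ) ρ} =
      Set.pi univ (Fin.cons (ball c R) (fun _ => ball (0 : ℂ) ρ) : Fin (k + 1) → Set ℂ) := by
    ext z
    simp only [Set.mem_ofPred_eq, Set.mem_pi, mem_univ, true_implies]
    constructor
    · rintro ⟨h1, h2⟩ i
      exact Fin.cases h1 h2 i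
    · intro h
      exact ⟨h 0, fun j => h j.succ⟩
  rw [e, MeasureTheory.volume_pi_pi, Fin.prod_univ_succ]
  simp only [Fin.cons_zero, Fin.cons_succ, Finset.prod_const, Finset.card_univ, Fintype.card_fin,
    Complex.volume_ball]
  have hpi : (NNReal.pi : ℝ≥0∞) = ENNReal.ofReal Real.pi := by
    rw [← NNReal.coe_real_pi, ENNReal.ofReal_coe_nnreal]
  rw [hpi, ← ENNReal.ofReal_pow hR, ← ENNReal.ofReal_pow hρ,
    ← ENNReal.ofReal_mul (by positivity), ← ENNReal.ofReal_mul (by positivity),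
    ← ENNReal.ofReal_pow (by positivity), ← ENNReal.ofReal_mul (by positivity)]
  congr 1
  ring

/-- a box on which the function is controlled -/
lemma vol_slab (R : ℝ) (hR : 0 < R) :
    volume {z : Cn (k + 1) | ‖z 0‖ < R ∧ ∀ j : Fin k, ‖z j.succ‖ < R ^ m} =
      ENNReal.ofReal (Real.pi ^ (k + 1) * R ^ (2 + 2 * m * k)) := by
  have h := vol_box (k := k) 0 R (R ^ m) hR.le (by positivity)
  simp only [mem_ball_zero_iff] at h
  rw [h]
  congr 1
  rw [mul_pow, pow_add R 2, ← pow_mul, ← pow_mul, pow_succ]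
  ring

/-- the integral of `|z_0|^{-p}` over a small piece of the domain -/
lemma int_small {p : ℝ} (hp : 0 < p) (hN : p < (2 + 2 * m * k : ℕ)) :
    ∃ c2 : ℝ, 0 ≤ c2 ∧ ∀ X : ℝ, 0 < X →
      ∫⁻ w in (Om k m ∩ {z : Cn (k + 1) | ‖z 0‖ < X}), ENNReal.ofReal (‖(w 0)⁻¹‖ ^ p) ≤
        ENNReal.ofReal (c2 * X ^ (((2 + 2 * m * k : ℕ) : ℝ) - p)) := by
  set N : ℕ := 2 + 2 * m * k with hNdef
  set ρ : ℝ := (1 / 2 : ℝ) ^ ((N : ℝ) - p) with hρ
  have hρ0 : 0 < ρ := by positivity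
  have hρ1 : ρ < 1 := Real.rpow_lt_one (by norm_num) (by norm_num) (by linarith)
  set c : ℝ := Real.pi ^ (k + 1) * 2 ^ p with hc
  have hc0 : 0 < c := by positivity
  refine ⟨c * (1 - ρ)⁻¹, mul_nonneg hc0.le (inv_nonneg.2 (by linarith)), fun X hX => ?_⟩
  let S : ℕ → Set (Cn (k + 1)) := fun i =>
    {z : Cn (k + 1) | ‖z 0‖ < X * (1 / 2) ^ i ∧ ∀ j : Fin k, ‖z j.succ‖ < (X * (1 / 2) ^ i) ^ m}
  let T : ℕ → Set (Cn (k + 1)) := fun i => {z : Cn (k + 1) | X * (1 / 2) ^ (i + 1) ≤ ‖z 0‖}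
  have h0 : Continuous (fun z : Cn (k + 1) => ‖z 0‖) := (continuous_apply 0).norm
  have hS : ∀ i, MeasurableSet (S i) := by
    intro i
    have e : S i = {z : Cn (k + 1) | ‖z 0‖ < X * (1 / 2) ^ i} ∩
        ⋂ j : Fin k, {z : Cn (k + 1) | ‖z j.succ‖ < (X * (1 / 2) ^ i) ^ m} := by
      ext z
      simp only [S, Set.mem_ofPred_eq, mem_inter_iff, mem_iInter]
    rw [e]
    refine MeasurableSet.inter (isOpen_lt h0 continuous_const).measurableSet ?_
    exact (isOpen_iInter_of_finite fun j =>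
      isOpen_lt (continuous_apply j.succ).norm continuous_const).measurableSet
  have hT : ∀ i, MeasurableSet (T i) := fun i =>
    (isClosed_le continuous_const h0).measurableSet
  have hcov : Om k m ∩ {z : Cn (k + 1) | ‖z 0‖ < X} ⊆ ⋃ i, S i ∩ T i := by
    rintro z ⟨hz, hzX⟩
    simp only [Set.mem_ofPred_eq] at hzX
    have hpos : 0 < ‖z 0‖ := hz.1
    have hex : ∃ n : ℕ, X * (1 / 2 : ℝ) ^ (n + 1) ≤ ‖z 0‖ := by
      obtain ⟨n, hn⟩ := exists_pow_lt_of_lt_one (div_pos hpos hX) (by norm_num : (1 / 2 : ℝ) < 1)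
      refine ⟨n, ?_⟩
      rw [lt_div_iff₀ hX] at hn
      have : (1 / 2 : ℝ) ^ (n + 1) ≤ (1 / 2) ^ n :=
        pow_le_pow_of_le_one (by norm_num) (by norm_num) (Nat.le_succ n)
      nlinarith
    classical
    have hlt : ‖z 0‖ < X * (1 / 2) ^ (Nat.find hex) := by
      by_cases hf : Nat.find hex = 0
      · rw [hf]; simpa using hzX
      · have h1 := Nat.find_min hex (Nat.sub_one_lt hf)
        rw [Nat.sub_add_cancel (Nat.one_le_iff_ne_zero.2 hf)] at h1
        exact not_le.1 h1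
    refine mem_iUnion.2 ⟨Nat.find hex, ⟨hlt, fun j => ?_⟩, Nat.find_spec hex⟩
    exact (hz.2.2 j).trans_le (pow_le_pow_left₀ hpos.le hlt.le m)
  have hpiece : ∀ i, ∫⁻ w in S i ∩ T i, ENNReal.ofReal (‖(w 0)⁻¹‖ ^ p) ≤
      ENNReal.ofReal (c * X ^ ((N : ℝ) - p) * ρ ^ i) := by
    intro i
    have hq : 0 < X * (1 / 2 : ℝ) ^ (i + 1) := by positivity
    have h1 : ∫⁻ w in S i ∩ T i, ENNReal.ofReal (‖(w 0)⁻¹‖ ^ p) ≤
        ∫⁻ _ in S i ∩ T i, ENNReal.ofReal ((X * (1 / 2 : ℝ) ^ (i + 1)) ^ (-p)) := by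
      refine setLIntegral_mono' ((hS i).inter (hT i)) fun w hw => ?_
      apply ENNReal.ofReal_le_ofReal
      have h2 : X * (1 / 2 : ℝ) ^ (i + 1) ≤ ‖w 0‖ := hw.2
      have h3 : 0 < ‖w 0‖ := hq.trans_le h2
      rw [norm_inv, Real.inv_rpow h3.le, ← Real.rpow_neg h3.le]
      exact Real.rpow_le_rpow_of_nonpos hq h2 (by linarith)
    refine h1.trans ?_
    rw [lintegral_const, Measure.restrict_apply_univ]
    have h2 : volume (S i ∩ T i) ≤
        ENNReal.ofReal (Real.pi ^ (k + 1) * (X * (1 / 2) ^ i) ^ (2 + 2 * m * k)) := by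
      rw [← vol_slab (k := k) (m := m) (X * (1 / 2) ^ i) (by positivity)]
      exact measure_mono inter_subset_left
    refine (mul_le_mul_right h2 _).trans ?_
    rw [← ENNReal.ofReal_mul (by positivity)]
    apply ENNReal.ofReal_le_ofReal
    apply le_of_eq
    have e1 : (X * (1 / 2 : ℝ) ^ (i + 1)) ^ (-p) = 2 ^ p * (X * (1 / 2 : ℝ) ^ i) ^ (-p) := by
      rw [show X * (1 / 2 : ℝ) ^ (i + 1) = (1 / 2) * (X * (1 / 2 : ℝ) ^ i) by ring,
        Real.mul_rpow (by norm_num) (by positivity)]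
      congr 1
      rw [Real.rpow_neg (by norm_num), ← Real.inv_rpow (by norm_num)]
      norm_num
    have e2 : (X * (1 / 2 : ℝ) ^ i) ^ (-p) * (X * (1 / 2) ^ i) ^ (2 + 2 * m * k) =
        X ^ ((N : ℝ) - p) * ρ ^ i := by
      rw [← hNdef, ← Real.rpow_natCast (X * (1 / 2) ^ i) N, ← Real.rpow_add (by positivity),
        Real.mul_rpow hX.le (by positivity), show -p + (N : ℝ) = (N : ℝ) - p by ring]
      congr 1
      rw [hρ, ← Real.rpow_natCast, ← Real.rpow_natCast, ← Real.rpow_mul (by norm_num),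
        ← Real.rpow_mul (by norm_num)]
      congr 1
      ring
    rw [e1]
    calc 2 ^ p * (X * (1 / 2) ^ i) ^ (-p) *
          (Real.pi ^ (k + 1) * (X * (1 / 2) ^ i) ^ (2 + 2 * m * k))
        = c * ((X * (1 / 2 : ℝ) ^ i) ^ (-p) * (X * (1 / 2) ^ i) ^ (2 + 2 * m * k)) := by
          rw [hc]; ring
      _ = c * X ^ ((N : ℝ) - p) * ρ ^ i := by rw [e2]; ring
  refine (lintegral_mono_set hcov).trans ((lintegral_iUnion_le _ _).trans ?_)
  refine (ENNReal.tsum_le_tsum hpiece).trans ?_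
  rw [← ENNReal.ofReal_tsum_of_nonneg (fun i => by positivity)
    ((summable_geometric_of_lt_one hρ0.le hρ1).mul_left _), tsum_mul_left,
    tsum_geometric_of_lt_one hρ0.le hρ1]
  apply ENNReal.ofReal_le_ofReal
  apply le_of_eq
  ring

/-- the integral over the ball -/
lemma int_ball {p : ℝ} (hp : 0 < p) (hN : p < (2 + 2 * m * k : ℕ)) :
    ∃ c2 : ℝ, 0 ≤ c2 ∧ ∀ X : ℝ, 0 < X → ∀ B : Set (Cn (k + 1)), B ⊆ Om k m →
      ∫⁻ w in B, ENNReal.ofReal (‖(w 0)⁻¹‖ ^ p) ≤
        ENNReal.ofReal (X ^ (-p)) * volume B +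
        ENNReal.ofReal (c2 * X ^ (((2 + 2 * m * k : ℕ) : ℝ) - p)) := by
  obtain ⟨c2, hc2, h⟩ := int_small (k := k) (m := m) hp hN
  refine ⟨c2, hc2, fun X hX B hB => ?_⟩
  have h0 : Continuous (fun z : Cn (k + 1) => ‖z 0‖) := (continuous_apply 0).norm
  have hA : MeasurableSet {z : Cn (k + 1) | ‖z 0‖ < X} :=
    (isOpen_lt h0 continuous_const).measurableSet
  rw [← lintegral_inter_add_sdiff _ B hA, add_comm]
  refine add_le_add ?_ ((lintegral_mono_set (inter_subset_inter_left _ hB)).trans (h X hX))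
  have e : B \ {z : Cn (k + 1) | ‖z 0‖ < X} = {z : Cn (k + 1) | ‖z 0‖ < X}ᶜ ∩ B := by
    rw [inter_comm]; rfl
  rw [e, ← Measure.restrict_restrict hA.compl]
  refine (setLIntegral_mono' (g := fun _ => ENNReal.ofReal (X ^ (-p))) hA.compl
    fun w hw => ?_).trans ?_
  · apply ENNReal.ofReal_le_ofReal
    have h2 : X ≤ ‖w 0‖ := not_lt.1 hw
    have h3 : 0 < ‖w 0‖ := hX.trans_le h2
    rw [norm_inv, Real.inv_rpow h3.le, ← Real.rpow_neg h3.le]
    exact Real.rpow_le_rpow_of_nonpos hX h2 (by linarith)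
  · rw [lintegral_const]
    refine mul_le_mul_right ?_ _
    rw [Measure.restrict_restrict hA.compl, Measure.restrict_apply_univ]
    exact measure_mono inter_subset_right

/-- lower bound for the volume of the ball -/
lemma vol_ball {r x X : ℝ} (hr0 : 0 < r) (hr1 : r ≤ 1 / 8) (hx0 : 0 < x) (hx1 : x < 1)
    (hX : X = x ^ (1 / (1 + r / 2))) (h1 : Real.pi ≤ r / 4 * (1 / (1 + r / 2)) * (-Real.log x))
    (h2 : x ≤ X / 2) :
    ENNReal.ofReal (Real.pi / 16 * (Real.pi * (r / 4) ^ 2 * (1 / 4) ^ m) ^ k *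
      X ^ (2 + 2 * m * k)) ≤ volume (kobBall (Om k m) (ctr k x) r) := by
  have hX0 : 0 < X := by rw [hX]; exact Real.rpow_pos_of_pos hx0 _
  have h := vol_box (k := k) ((3 * X / 4 : ℝ) : ℂ) (X / 4) (r / 4 * (X / 2) ^ m) (by positivity)
    (by positivity)
  refine le_trans (le_of_eq ?_) (measure_mono
    (s := {z : Cn (k + 1) | z 0 ∈ ball ((3 * X / 4 : ℝ) : ℂ) (X / 4) ∧
      ∀ j : Fin k, z j.succ ∈ ball (0 : ℂ) (r / 4 * (X / 2) ^ m)}) ?_)
  · rw [h]
    congr 1
    have e1 : ((1 / 2 : ℝ) ^ m) ^ 2 = (1 / 4) ^ m := by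
      rw [← pow_mul, mul_comm m 2, pow_mul]; norm_num
    have e2 : (r / 4 * (X / 2) ^ m) ^ 2 = (r / 4) ^ 2 * (1 / 4) ^ m * (X ^ m) ^ 2 := by
      rw [div_eq_mul_one_div X 2, mul_pow X, ← e1]; ring
    have e3 : X ^ (2 + 2 * m * k) = X ^ 2 * ((X ^ m) ^ 2) ^ k := by
      rw [pow_add, ← pow_mul, ← pow_mul]; ring_nf
    rw [e2, e3, ← mul_assoc, ← mul_assoc, ← mul_assoc Real.pi, mul_pow _ ((X ^ m) ^ 2) k]
    ring
  · rintro z ⟨hz0, hz⟩
    rw [mem_ball, dist_eq_norm] at hz0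
    have hn : ‖((3 * X / 4 : ℝ) : ℂ)‖ = 3 * X / 4 := by
      rw [Complex.norm_real, Real.norm_eq_abs, abs_of_pos (by positivity)]
    have h3 := norm_sub_norm_le ((3 * X / 4 : ℝ) : ℂ) (z 0)
    have h4 := norm_sub_norm_le (z 0) ((3 * X / 4 : ℝ) : ℂ)
    rw [norm_sub_rev, hn] at h3
    rw [hn] at h4
    exact box_mem hr0 hr1 hx0 hx1 hX h1 h2 (by linarith) (by linarith)
      (fun j => by simpa using hz j)

/-- The sub-mean value inequality fails on `Om k m`. -/
theorem main {p : ℝ} (hp : 0 < p) (hN : p < (2 + 2 * m * k : ℕ)) :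
    ¬ ∃ C > 0, ∃ r0 > 0, ∀ f : Cn (k + 1) → ℂ, DifferentiableOn ℂ f (Om k m) →
      ∀ z ∈ Om k m, ∀ r : ℝ, 0 < r → r < r0 →
        ENNReal.ofReal (‖f z‖ ^ p) ≤ ENNReal.ofReal C / volume (kobBall (Om k m) z r) *
          ∫⁻ w in kobBall (Om k m) z r, ENNReal.ofReal (‖f w‖ ^ p) := by
  rintro ⟨C, hC, r0, hr0, H⟩
  obtain ⟨c2, hc2, hint⟩ := int_ball (k := k) (m := m) hp hN
  set r : ℝ := min (r0 / 2) (1 / 8) with hr
  have hrpos : 0 < r := lt_min (by linarith) (by norm_num)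
  have hr8 : r ≤ 1 / 8 := min_le_right _ _
  have hrr : r < r0 := by
    have := min_le_left (r0 / 2) (1 / 8)
    linarith
  set β : ℝ := 1 / (1 + r / 2) with hβ
  have hβ0 : 0 < β := by positivity
  have hβ1 : β < 1 := by
    rw [hβ, div_lt_one (by positivity)]
    linarith
  set c1 : ℝ := Real.pi / 16 * (Real.pi * (r / 4) ^ 2 * (1 / 4) ^ m) ^ k with hc1
  have hc1pos : 0 < c1 := by positivity
  set K : ℝ := C * (1 + c2 / c1) with hK
  have E0 : ∀ᶠ x : ℝ in 𝓝[>] 0, 0 < x := self_mem_nhdsWithin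
  have E1 : ∀ᶠ x : ℝ in 𝓝[>] 0, x < 1 := nhdsWithin_le_nhds (gt_mem_nhds one_pos)
  have E2 : ∀ᶠ x : ℝ in 𝓝[>] 0, Real.log x ≤ -(Real.pi / (r / 4 * β)) :=
    Real.tendsto_log_nhdsGT_zero.eventually_le_atBot _
  have E3 : ∀ᶠ x : ℝ in 𝓝[>] 0, 2 ≤ x ^ (β - 1) :=
    (tendsto_rpow_neg_nhdsGT_zero (by linarith)).eventually_ge_atTop 2
  have E4 : ∀ᶠ x : ℝ in 𝓝[>] 0, K < x ^ (-(1 - β) * p) :=
    (tendsto_rpow_neg_nhdsGT_zero (by nlinarith)).eventually_gt_atTop K
  obtain ⟨x, hx0, hx1, hx2, hx3, hx4⟩ := (E0.and (E1.and (E2.and (E3.and E4)))).exists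
  set X : ℝ := x ^ β with hX
  have hX0 : 0 < X := Real.rpow_pos_of_pos hx0 _
  have hA : Real.pi ≤ r / 4 * β * (-Real.log x) := by
    have h1 : 0 < r / 4 * β := by positivity
    have h2 : Real.pi / (r / 4 * β) ≤ -Real.log x := by linarith
    rw [div_le_iff₀ h1] at h2
    linarith
  have hB : x ≤ X / 2 := by
    have h1 : X = x * x ^ (β - 1) := by
      rw [hX, ← Real.rpow_one_add' hx0.le (by linarith)]
      congr 1
      ring
    rw [h1]
    nlinarith
  have hV := vol_ball (k := k) (m := m) hrpos hr8 hx0 hx1 hX hA hB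
  set B := kobBall (Om k m) (ctr k x) r with hBdef
  have hBO : B ⊆ Om k m := fun w hw => hw.1
  have hVfin : volume B ≠ ⊤ :=
    ((measure_mono hBO).trans_lt isBounded_Om.measure_lt_top).ne
  set v : ℝ := (volume B).toReal with hv
  have hVv : volume B = ENNReal.ofReal v := (ENNReal.ofReal_toReal hVfin).symm
  set N : ℕ := 2 + 2 * m * k with hNdef
  have hv1 : c1 * X ^ N ≤ v := by
    rw [hVv] at hV
    exact (ENNReal.ofReal_le_ofReal_iff ENNReal.toReal_nonneg).1 hV
  have hvpos : 0 < v := lt_of_lt_of_le (by positivity) hv1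
  have hf : DifferentiableOn ℂ (fun z : Cn (k + 1) => (z 0)⁻¹) (Om k m) :=
    (differentiable_apply (𝕜 := ℂ) (0 : Fin (k + 1))).differentiableOn.inv
      (fun z hz => norm_pos_iff.1 hz.1)
  have key := H (fun z => (z 0)⁻¹) hf (ctr k x) (ctr_mem hx0 hx1) r hrpos hrr
  rw [← hBdef] at key
  have hint' := hint X hX0 B hBO
  rw [hVv, ← ENNReal.ofReal_mul (by positivity), ← ENNReal.ofReal_add (by positivity)
    (by positivity)] at hint'
  have key2 := key.trans (mul_le_mul_right hint' _)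
  rw [hVv, ← ENNReal.ofReal_div_of_pos hvpos, ← ENNReal.ofReal_mul (by positivity),
    ENNReal.ofReal_le_ofReal_iff (by positivity)] at key2
  have e1 : ‖(ctr k x 0)⁻¹‖ ^ p = x ^ (-p) := by
    have : ‖ctr k x 0‖ = x := by simp [ctr, abs_of_pos hx0]
    rw [norm_inv, this, Real.inv_rpow hx0.le, ← Real.rpow_neg hx0.le]
  rw [e1] at key2
  have e2 : X ^ ((N : ℝ) - p) ≤ X ^ (-p) * (v / c1) := by
    rw [show (N : ℝ) - p = -p + (N : ℝ) by ring, Real.rpow_add hX0, Real.rpow_natCast]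
    apply mul_le_mul_of_nonneg_left _ (by positivity)
    rw [le_div_iff₀ hc1pos]
    linarith
  have key3 : x ^ (-p) ≤ K * X ^ (-p) := by
    refine key2.trans ?_
    have h1 : c2 * X ^ ((N : ℝ) - p) ≤ c2 * (X ^ (-p) * (v / c1)) :=
      mul_le_mul_of_nonneg_left e2 hc2
    calc C / v * (X ^ (-p) * v + c2 * X ^ ((N : ℝ) - p))
        ≤ C / v * (X ^ (-p) * v + c2 * (X ^ (-p) * (v / c1))) := by gcongr
      _ = K * X ^ (-p) := by rw [hK]; field_simp
  have e3 : x ^ (-p) = x ^ (-(1 - β) * p) * X ^ (-p) := by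
    rw [hX, ← Real.rpow_mul hx0.le, ← Real.rpow_add hx0]
    congr 1
    ring
  rw [e3] at key3
  have h5 : 0 < X ^ (-p) := Real.rpow_pos_of_pos hX0 _
  have h6 := (mul_le_mul_iff_left₀ h5).1 key3
  linarith

end estimate

/-- **Main theorem.** For every `n ≥ 2` and every exponent `p > 0` (and also for `n = 1` and every
`p < 2`) there is a bounded domain in `ℂⁿ`, complete for its Kobayashi distance, on which the
sub-mean value inequality on Kobayashi balls fails for the exponent `p`. -/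
theorem result (n : ℕ) (p : ℝ) (hp : 0 < p) (h : 2 ≤ n ∨ n = 1 ∧ p < 2) :
    ∃ Ω : Set (Cn n), IsOpen Ω ∧ IsConnected Ω ∧ Bornology.IsBounded Ω ∧ KobComplete Ω ∧
      ¬ ∃ C > 0, ∃ r0 > 0, ∀ f : Cn n → ℂ, DifferentiableOn ℂ f Ω →
        ∀ z ∈ Ω, ∀ r : ℝ, 0 < r → r < r0 →
          ENNReal.ofReal (‖f z‖ ^ p) ≤ ENNReal.ofReal C / volume (kobBall Ω z r) *
            ∫⁻ w in kobBall Ω z r, ENNReal.ofReal (‖f w‖ ^ p) := by
  obtain ⟨k, rfl⟩ : ∃ k, n = k + 1 := ⟨n - 1, by omega⟩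
  obtain ⟨m, hm⟩ : ∃ m : ℕ, p < (2 + 2 * m * k : ℕ) := by
    rcases h with h | h
    · obtain ⟨m, hm⟩ := exists_nat_gt p
      refine ⟨m, hm.trans_le ?_⟩
      have hk : 1 ≤ k := by omega
      exact_mod_cast (by nlinarith : m ≤ 2 + 2 * m * k)
    · exact ⟨0, by simpa using h.2⟩
  exact ⟨Om k m, isOpen_Om, isConnected_Om, isBounded_Om, complete_Om, main hp hm⟩

end Pool.Agent.Results.MP_8e2100_an.SubMeanFails
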